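import Pool.Agent.TH173.TO.Deficit
import Pool.Agent.TH173.KR.Comb

/-! Turán's bound for the 3-graphs of the rule `{1, 2, 3, 5}`. -/

set_option autoImplicit false
open Finset

namespace Pool.Agent.TH173.TO
open Pool.Agent.TH173.OE

variable {g : ℕ → ℕ → Bool}

/-- the number of pairs in a common list -/
def cost (g : ℕ → ℕ → Bool) (S : Finset ℕ) : ℕ :=
  ∑ v ∈ S, ((dl g S v).card.choose 2 + (fl g S v).card.choose 2)

theorem lists_sum (n : ℕ) :
    ∑ v ∈ range n, ((dl g (range n) v).card + (fl g (range n) v).card) = n.choose 2 := by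
  have h1 : ∀ v, (dl g (range n) v).card = ∑ u ∈ range n, if u < v ∧ g u v = true then 1 else 0 :=
    fun v => card_filter _ _
  have h2 : ∀ v, (fl g (range n) v).card = ∑ u ∈ range n, if v < u ∧ g v u = false then 1 else 0 :=
    fun v => card_filter _ _
  simp only [h1, h2]
  rw [sum_add_distrib]
  rw [sum_comm (f := fun v u => if v < u ∧ g v u = false then 1 else 0), ← sum_add_distrib]
  have h3 : ∀ v ∈ range n, ((∑ u ∈ range n, if u < v ∧ g u v = true then 1 else 0) +
      ∑ u ∈ range n, if u < v ∧ g u v = false then 1 else 0) = v := by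
    intro v hv
    rw [mem_range] at hv
    rw [← sum_add_distrib]
    have : ∀ u ∈ range n, ((if u < v ∧ g u v = true then 1 else 0) +
        if u < v ∧ g u v = false then 1 else 0) = if u < v then 1 else 0 := by
      intro u _
      rcases Bool.eq_false_or_eq_true (g u v) with h | h <;> simp [h]
    rw [sum_congr rfl this, ← card_filter]
    have e : (range n).filter (fun u => u < v) = range v := by
      ext u
      simp only [mem_filter, mem_range]
      omega
    rw [e, card_range]
  rw [sum_congr rfl h3, sum_range_id, Nat.choose_two_right]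

theorem choose_two_ge (d m : ℕ) : ∑ i ∈ Icc 1 m, (d - i) ≤ d.choose 2 := by
  induction m generalizing d with
  | zero => simp
  | succ m ih =>
    rcases Nat.eq_zero_or_pos d with rfl | hd
    · simp
    · obtain ⟨e, rfl⟩ : ∃ e, d = e + 1 := ⟨d - 1, by omega⟩
      have h1 : ∑ i ∈ Icc 1 (m + 1), (e + 1 - i) = e + ∑ i ∈ Icc 1 m, (e - i) := by
        have e1 : Icc 1 (m + 1) = insert 1 ((Icc 1 m).map (addRightEmbedding 1)) := by
          ext x
          simp only [mem_insert, mem_map, mem_Icc, addRightEmbedding_apply]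
          constructor
          · rintro ⟨h1, h2⟩
            rcases Nat.eq_or_lt_of_le h1 with h | h
            · exact Or.inl h.symm
            · exact Or.inr ⟨x - 1, ⟨by omega, by omega⟩, by omega⟩
          · rintro (rfl | ⟨y, ⟨h1, h2⟩, rfl⟩)
            · omega
            · omega
        rw [e1, sum_insert, sum_map]
        · congr 1
          apply sum_congr rfl
          intro x _
          simp only [addRightEmbedding_apply]
          omega
        · simp only [mem_map, mem_Icc, addRightEmbedding_apply, not_exists, not_and]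
          intro x hx
          omega
      rw [h1, Nat.choose_succ_succ' e 1, Nat.choose_one_right]
      exact Nat.add_le_add_left (ih e) e

theorem arith (n i : ℕ) (h : 3 * i ≤ n) :
    (n.choose 2 : ℤ) + 3 * (i + 1).choose 2 = 2 * i * n + ((n - 2 * i).choose 2 - i.choose 2) := by
  obtain ⟨m, rfl⟩ : ∃ m, n = 3 * i + m := ⟨n - 3 * i, by omega⟩
  have e : 3 * i + m - 2 * i = i + m := by omega
  rw [e]
  have two : ∀ x : ℕ, (2 : ℤ) * (x.choose 2 : ℤ) = x * (x - 1) := by
    intro x
    rcases Nat.eq_zero_or_pos x with rfl | hx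
    · simp
    · obtain ⟨y, rfl⟩ : ∃ y, x = y + 1 := ⟨x - 1, by omega⟩
      have := two_choose y
      zify at this
      rw [this]
      push_cast
      ring
  have a1 := two (3 * i + m)
  have a2 := two (i + 1)
  have a3 := two (i + m)
  have a4 := two i
  push_cast at a1 a2 a3 a4 ⊢
  linarith

theorem cost_ge (n : ℕ) (hok : Ok g (range n)) : turan n ≤ cost g (range n) := by
  have h1 : ∑ i ∈ Icc 1 (n / 3), (((n - 2 * i).choose 2 : ℤ) - (i.choose 2 : ℤ)) ≤
      (cost g (range n) : ℤ) := by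
    have h2 : ∀ i ∈ Icc 1 (n / 3), (((n - 2 * i).choose 2 : ℤ) - (i.choose 2 : ℤ)) ≤
        ((∑ v ∈ range n, (((dl g (range n) v).card - i) + ((fl g (range n) v).card - i)) : ℕ) :
          ℤ) := by
      intro i hi
      rw [mem_Icc] at hi
      have hi3 : 3 * i ≤ n := by omega
      have h3 := deficit_ge i (range n) (by rw [card_range]; omega) hok
      have h4 := lists_sum (g := g) n
      have h5 : (∑ v ∈ range n, (((dl g (range n) v).card - i) + ((fl g (range n) v).card - i))) +
          2 * i * n = n.choose 2 + deficit g (range n) i := by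
        rw [← h4]
        unfold deficit
        have : 2 * i * n = ∑ v ∈ range n, 2 * i := by
          rw [sum_const, card_range, smul_eq_mul]
          ring
        rw [this, ← sum_add_distrib, ← sum_add_distrib]
        apply sum_congr rfl
        intro v _
        omega
      have h6 := arith n i hi3
      zify at h3 h5
      push_cast at h3 h5 ⊢
      linarith
    refine (sum_le_sum h2).trans ?_
    rw [← Nat.cast_sum]
    norm_cast
    rw [sum_comm]
    unfold cost
    apply sum_le_sum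
    intro v _
    rw [sum_add_distrib]
    exact Nat.add_le_add (choose_two_ge _ _) (choose_two_ge _ _)
  have h2 := KR.bnd_kalai n (n / 3) (by omega)
  have h3 := bnd_turan n
  zify at h3 ⊢
  linarith

/-- The bound for 3-graphs on the vertices `0, ..., n - 1`. -/
theorem core (n : ℕ) (H : Finset (Finset ℕ)) (hH : H ⊆ (range n).powersetCard 3)
    (hE : ∀ a b c : ℕ, a < b → b < c → c < n → (({a, b, c} : Finset ℕ) ∈ H ↔
      (g a b = true ∨ g a c = true) ∧ ¬ (g a c = true ∧ g b c = true)))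
    (hK : ∀ a b c d : ℕ, a < b → b < c → c < d → d < n → ¬ (({a, b, c} : Finset ℕ) ∈ H ∧
      ({a, b, d} : Finset ℕ) ∈ H ∧ ({a, c, d} : Finset ℕ) ∈ H ∧ ({b, c, d} : Finset ℕ) ∈ H)) :
    H.card + turan n ≤ n.choose 3 := by
  have hok : Ok g (range n) := by
    intro a _ b _ c _ d hd hab hbc hcd hbad
    rw [mem_range] at hd
    apply hK a b c d hab hbc hcd hd
    rw [hE a b c hab hbc (hcd.trans hd), hE a b d hab (hbc.trans hcd) hd,
      hE a c d (hab.trans hbc) hcd hd, hE b c d hbc hcd hd]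
    unfold Bad at hbad
    rcases hbad with ⟨h1, h2, ⟨h3, h4, h5, h6⟩ | ⟨h3, h4, h5, h6⟩⟩ <;> simp [h1, h2, h3, h4, h5, h6]
  have hc := cost_ge n hok
  -- the triples which are not edges
  set D : Finset (Σ _ : ℕ, Finset ℕ) :=
    (range n).sigma fun v => (dl g (range n) v).powersetCard 2 with hD
  set F : Finset (Σ _ : ℕ, Finset ℕ) :=
    (range n).sigma fun v => (fl g (range n) v).powersetCard 2 with hF
  have hDc : D.card + F.card = cost g (range n) := by
    rw [hD, hF, card_sigma, card_sigma, ← sum_add_distrib]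
    unfold cost
    simp only [card_powersetCard]
  set f : (Σ _ : ℕ, Finset ℕ) → Finset ℕ := fun p => insert p.1 p.2 with hf
  have pair : ∀ p : Finset ℕ, p.card = 2 → ∃ a b, a < b ∧ p = {a, b} := by
    intro p hp
    obtain ⟨a, b, hab, rfl⟩ := card_eq_two.1 hp
    rcases lt_or_gt_of_ne hab with h | h
    · exact ⟨a, b, h, rfl⟩
    · exact ⟨b, a, h, pair_comm a b⟩
  have inj : ∀ {a b c a' b' c' : ℕ}, a < b → b < c → a' < b' → b' < c' →
      ({a, b, c} : Finset ℕ) = {a', b', c'} → a = a' ∧ b = b' ∧ c = c' := by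
    intro a b c a' b' c' h1 h2 h3 h4 h
    have m1 : a ∈ ({a', b', c'} : Finset ℕ) := by rw [← h]; simp
    have m2 : b ∈ ({a', b', c'} : Finset ℕ) := by rw [← h]; simp
    have m3 : c ∈ ({a', b', c'} : Finset ℕ) := by rw [← h]; simp
    have m4 : a' ∈ ({a, b, c} : Finset ℕ) := by rw [h]; simp
    have m5 : b' ∈ ({a, b, c} : Finset ℕ) := by rw [h]; simp
    have m6 : c' ∈ ({a, b, c} : Finset ℕ) := by rw [h]; simp
    simp only [mem_insert, mem_singleton] at m1 m2 m3 m4 m5 m6
    omega
  have hDm : ∀ p ∈ D, ∃ a b c, a < b ∧ b < c ∧ c < n ∧ g a c = true ∧ g b c = true ∧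
      p = ⟨c, {a, b}⟩ := by
    rintro ⟨v, q⟩ hp
    rw [hD, mem_sigma, mem_powersetCard] at hp
    obtain ⟨a, b, hab, rfl⟩ := pair q hp.2.2
    have ha : a ∈ dl g (range n) v := hp.2.1 (by simp)
    have hb : b ∈ dl g (range n) v := hp.2.1 (by simp)
    rw [mem_dl] at ha hb
    exact ⟨a, b, v, hab, hb.2.1, mem_range.1 hp.1, ha.2.2, hb.2.2, rfl⟩
  have hFm : ∀ p ∈ F, ∃ a b c, a < b ∧ b < c ∧ c < n ∧ g a b = false ∧ g a c = false ∧
      p = ⟨a, {b, c}⟩ := by
    rintro ⟨v, q⟩ hp
    rw [hF, mem_sigma, mem_powersetCard] at hp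
    obtain ⟨b, c, hbc, rfl⟩ := pair q hp.2.2
    have hb : b ∈ fl g (range n) v := hp.2.1 (by simp)
    have hc : c ∈ fl g (range n) v := hp.2.1 (by simp)
    rw [mem_fl] at hb hc
    exact ⟨v, b, c, hb.2.1, hbc, mem_range.1 hc.1, hb.2.2, hc.2.2, rfl⟩
  have hfD : ∀ a b c : ℕ, f ⟨c, {a, b}⟩ = {a, b, c} := by
    intro a b c
    ext x
    simp only [hf, mem_insert, mem_singleton]
    tauto
  have hfF : ∀ a b c : ℕ, f ⟨a, {b, c}⟩ = {a, b, c} := fun a b c => rfl
  have hDi : (D.image f).card = D.card := by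
    apply card_image_of_injOn
    intro p hp q hq hpq
    obtain ⟨a, b, c, h1, h2, _, _, _, rfl⟩ := hDm p hp
    obtain ⟨a', b', c', h1', h2', _, _, _, rfl⟩ := hDm q hq
    rw [hfD, hfD] at hpq
    obtain ⟨rfl, rfl, rfl⟩ := inj h1 h2 h1' h2' hpq
    rfl
  have hFi : (F.image f).card = F.card := by
    apply card_image_of_injOn
    intro p hp q hq hpq
    obtain ⟨a, b, c, h1, h2, _, _, _, rfl⟩ := hFm p hp
    obtain ⟨a', b', c', h1', h2', _, _, _, rfl⟩ := hFm q hq
    rw [hfF, hfF] at hpq
    obtain ⟨rfl, rfl, rfl⟩ := inj h1 h2 h1' h2' hpq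
    rfl
  have hDF : Disjoint (D.image f) (F.image f) := by
    rw [disjoint_left]
    intro e h1 h2
    rw [mem_image] at h1 h2
    obtain ⟨p, hp, rfl⟩ := h1
    obtain ⟨q, hq, hpq⟩ := h2
    obtain ⟨a, b, c, h1, h2, _, h3, _, rfl⟩ := hDm p hp
    obtain ⟨a', b', c', h1', h2', _, _, h3', rfl⟩ := hFm q hq
    rw [hfF a' b' c', hfD a b c] at hpq
    obtain ⟨rfl, rfl, rfl⟩ := inj h1' h2' h1 h2 hpq
    rw [h3] at h3'
    simp at h3'
  have hdisj : Disjoint H (D.image f ∪ F.image f) := by
    rw [disjoint_left]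
    intro e he h1
    rw [mem_union, mem_image, mem_image] at h1
    rcases h1 with ⟨p, hp, rfl⟩ | ⟨p, hp, rfl⟩
    · obtain ⟨a, b, c, h1, h2, h3, h4, h5, rfl⟩ := hDm p hp
      rw [hfD, hE a b c h1 h2 h3] at he
      exact he.2 ⟨h4, h5⟩
    · obtain ⟨a, b, c, h1, h2, h3, h4, h5, rfl⟩ := hFm p hp
      rw [hfF, hE a b c h1 h2 h3, h4, h5] at he
      simp at he
  have hsub : H ∪ (D.image f ∪ F.image f) ⊆ (range n).powersetCard 3 := by
    have h3 : ∀ a b c : ℕ, a < b → b < c → c < n →
        ({a, b, c} : Finset ℕ) ∈ (range n).powersetCard 3 := by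
      intro a b c h1 h2 h3
      rw [mem_powersetCard]
      constructor
      · intro x hx
        simp only [mem_insert, mem_singleton] at hx
        rw [mem_range]
        omega
      · rw [card_eq_three]
        exact ⟨a, b, c, h1.ne, (h1.trans h2).ne, h2.ne, rfl⟩
    apply union_subset hH
    apply union_subset
    · intro e he
      rw [mem_image] at he
      obtain ⟨p, hp, rfl⟩ := he
      obtain ⟨a, b, c, h1, h2, h3', _, _, rfl⟩ := hDm p hp
      rw [hfD]
      exact h3 a b c h1 h2 h3'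
    · intro e he
      rw [mem_image] at he
      obtain ⟨p, hp, rfl⟩ := he
      obtain ⟨a, b, c, h1, h2, h3', _, _, rfl⟩ := hFm p hp
      rw [hfF]
      exact h3 a b c h1 h2 h3'
  have := card_le_card hsub
  rw [card_union_of_disjoint hdisj, card_union_of_disjoint hDF, hDi, hFi, card_powersetCard,
    card_range] at this
  omega

theorem k4 {V : Type} [DecidableEq V] {H : Finset (Finset V)}
    (hK : ∀ S : Finset V, S.card = 4 → ∃ s ⊆ S, s.card = 3 ∧ s ∉ H) {a b c d : V}
    (n1 : a ≠ b) (n2 : a ≠ c) (n3 : a ≠ d) (n4 : b ≠ c) (n5 : b ≠ d) (n6 : c ≠ d) :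
    ¬ (({a, b, c} : Finset V) ∈ H ∧ ({a, b, d} : Finset V) ∈ H ∧
      ({a, c, d} : Finset V) ∈ H ∧ ({b, c, d} : Finset V) ∈ H) := by
  rintro ⟨h1, h2, h3, h4⟩
  have hc : ({a, b, c, d} : Finset V).card = 4 := by
    rw [card_eq_succ]
    refine ⟨a, {b, c, d}, ?_, rfl, ?_⟩
    · simp only [mem_insert, mem_singleton, not_or]
      exact ⟨n1, n2, n3⟩
    · rw [card_eq_three]
      exact ⟨b, c, d, n4, n5, n6, rfl⟩
  obtain ⟨s, hs, hs3, hsH⟩ := hK {a, b, c, d} hc
  have h5 := card_sdiff_add_card_eq_card hs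
  obtain ⟨x, hx⟩ := card_eq_one.1 (show (({a, b, c, d} : Finset V) \ s).card = 1 by omega)
  have hsx : s = ({a, b, c, d} : Finset V).erase x := by
    rw [erase_eq, ← hx, Finset.sdiff_sdiff_eq_self hs]
  have hxm : x ∈ ({a, b, c, d} : Finset V) := by
    have : x ∈ ({a, b, c, d} : Finset V) \ s := by rw [hx]; exact mem_singleton_self x
    exact (mem_sdiff.1 this).1
  have key : ∀ t : Finset V, ({a, b, c, d} : Finset V) = insert x t → x ∉ t → t ∉ H := by
    intro t ht hxt
    rw [hsx, ht, erase_insert hxt] at hsH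
    exact hsH
  simp only [mem_insert, mem_singleton] at hxm
  rcases hxm with rfl | rfl | rfl | rfl
  · exact key {b, c, d} rfl (by simp [n1, n2, n3]) h4
  · exact key {a, c, d} (insert_comm _ _ _) (by simp [n1.symm, n4, n5]) h3
  · refine key {a, b, d} ?_ (by simp [n2.symm, n4.symm, n6]) h2
    rw [insert_comm b x, insert_comm a x]
  · refine key {a, b, c} ?_ (by simp [n3.symm, n5.symm, n6.symm]) h1
    rw [pair_comm c x, insert_comm b x, insert_comm a x]

open scoped Classical in
/-- **Turán's bound for the rule `{1, 2, 3, 5}`.** -/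
theorem main {n : ℕ} (G : Fin n → Fin n → Prop) (H : Finset (Finset (Fin n)))
    (h3 : ∀ e ∈ H, e.card = 3)
    (hK : ∀ S : Finset (Fin n), S.card = 4 → ∃ s ⊆ S, s.card = 3 ∧ s ∉ H)
    (hH : ∀ a b c : Fin n, a < b → b < c → (({a, b, c} : Finset (Fin n)) ∈ H ↔
      (G a b ∨ G a c) ∧ ¬ (G a c ∧ G b c))) :
    H.card + turan n ≤ n.choose 3 := by
  set g : ℕ → ℕ → Bool := fun x y => decide (∃ (hx : x < n) (hy : y < n), G ⟨x, hx⟩ ⟨y, hy⟩)
    with hg
  have hgG : ∀ a b : Fin n, g a b = true ↔ G a b := by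
    intro a b
    simp [hg]
  set H' : Finset (Finset ℕ) := H.image fun e => e.map Fin.valEmbedding with hH'
  have hc : H'.card = H.card := by
    apply card_image_of_injective
    intro e e' h
    exact map_injective _ h
  have hmem : ∀ a b c : Fin n, ({(a : ℕ), (b : ℕ), (c : ℕ)} : Finset ℕ) ∈ H' ↔
      ({a, b, c} : Finset (Fin n)) ∈ H := by
    intro a b c
    have e1 : ({(a : ℕ), (b : ℕ), (c : ℕ)} : Finset ℕ) =
        ({a, b, c} : Finset (Fin n)).map Fin.valEmbedding := by
      simp [map_insert]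
    rw [hH', e1, mem_image]
    constructor
    · rintro ⟨e, he, hee⟩
      rw [← map_injective _ hee]
      exact he
    · intro h
      exact ⟨_, h, rfl⟩
  rw [← hc]
  apply core (g := g)
  · intro e he
    rw [hH', mem_image] at he
    obtain ⟨e', he', rfl⟩ := he
    rw [mem_powersetCard, card_map]
    refine ⟨?_, h3 e' he'⟩
    intro x hx
    rw [mem_map] at hx
    obtain ⟨y, _, rfl⟩ := hx
    rw [mem_range]
    exact y.2
  · intro a b c hab hbc hc
    have := hmem ⟨a, by omega⟩ ⟨b, by omega⟩ ⟨c, hc⟩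
    simp only at this
    rw [this, hH _ _ _ (by simpa using hab) (by simpa using hbc), ← hgG, ← hgG, ← hgG]
  · intro a b c d hab hbc hcd hd hall
    have e1 := hmem ⟨a, by omega⟩ ⟨b, by omega⟩ ⟨c, by omega⟩
    have e2 := hmem ⟨a, by omega⟩ ⟨b, by omega⟩ ⟨d, hd⟩
    have e3 := hmem ⟨a, by omega⟩ ⟨c, by omega⟩ ⟨d, hd⟩
    have e4 := hmem ⟨b, by omega⟩ ⟨c, by omega⟩ ⟨d, hd⟩
    simp only at e1 e2 e3 e4
    rw [e1, e2, e3, e4] at hall
    have hab' : (⟨a, by omega⟩ : Fin n) < ⟨b, by omega⟩ := by simpa using hab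
    have hbc' : (⟨b, by omega⟩ : Fin n) < ⟨c, by omega⟩ := by simpa using hbc
    have hcd' : (⟨c, by omega⟩ : Fin n) < ⟨d, hd⟩ := by simpa using hcd
    generalize (⟨a, by omega⟩ : Fin n) = a' at *
    generalize (⟨b, by omega⟩ : Fin n) = b' at *
    generalize (⟨c, by omega⟩ : Fin n) = c' at *
    generalize (⟨d, hd⟩ : Fin n) = d' at *
    have n1 := hab'.ne
    have n2 := (hab'.trans hbc').ne
    have n3 := (hab'.trans (hbc'.trans hcd')).ne
    have n4 := hbc'.ne
    have n5 := (hbc'.trans hcd').ne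
    have n6 := hcd'.ne
    exact k4 hK n1 n2 n3 n4 n5 n6 hall

end Pool.Agent.TH173.TO
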