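import Pool.Agent.TH173.TO.Deficit62
import Pool.Agent.TH173.TO.Main
import Pool.Agent.TH173.OE.General

/-! Turán's bound for the 3-graphs of the rule `{1, 2, 3, 4, 5}`. -/

set_option autoImplicit false
open Finset

namespace Pool.Agent.TH173.TO
open Pool.Agent.TH173.OE

variable {g : ℕ → ℕ → Bool}

/-- from the deficits to the cost -/
theorem cost_of_deficit (n : ℕ) (a b : ℕ → ℕ) (hs : ∑ v ∈ range n, (a v + b v) = n.choose 2)
    (hd : ∀ i, 1 ≤ i → 3 * i ≤ n →
      3 * (i + 1).choose 2 ≤ ∑ v ∈ range n, ((i - a v) + (i - b v))) :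
    turan n ≤ ∑ v ∈ range n, ((a v).choose 2 + (b v).choose 2) := by
  have h1 : ∑ i ∈ Icc 1 (n / 3), (((n - 2 * i).choose 2 : ℤ) - (i.choose 2 : ℤ)) ≤
      ((∑ v ∈ range n, ((a v).choose 2 + (b v).choose 2) : ℕ) : ℤ) := by
    have h2 : ∀ i ∈ Icc 1 (n / 3), (((n - 2 * i).choose 2 : ℤ) - (i.choose 2 : ℤ)) ≤
        ((∑ v ∈ range n, ((a v - i) + (b v - i)) : ℕ) : ℤ) := by
      intro i hi
      rw [mem_Icc] at hi
      have hi3 : 3 * i ≤ n := by omega
      have h3 := hd i hi.1 hi3
      have h5 : (∑ v ∈ range n, ((a v - i) + (b v - i))) + 2 * i * n =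
          n.choose 2 + ∑ v ∈ range n, ((i - a v) + (i - b v)) := by
        rw [← hs]
        have : 2 * i * n = ∑ v ∈ range n, 2 * i := by
          rw [sum_const, card_range, smul_eq_mul]
          ring
        rw [this, ← sum_add_distrib, ← sum_add_distrib]
        apply sum_congr rfl
        intro v _
        omega
      have h6 := arith n i hi3
      zify at h3 h5
      push_cast at h3 h5 ⊢
      linarith
    refine (sum_le_sum h2).trans ?_
    rw [← Nat.cast_sum]
    norm_cast
    rw [sum_comm]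
    apply sum_le_sum
    intro v _
    rw [sum_add_distrib]
    exact Nat.add_le_add (choose_two_ge _ _) (choose_two_ge _ _)
  have h2 := KR.bnd_kalai n (n / 3) (by omega)
  have h3 := bnd_turan n
  have h4 : (turan n : ℤ) ≤
      ((∑ v ∈ range n, ((a v).choose 2 + (b v).choose 2) : ℕ) : ℤ) := by
    refine le_trans ?_ h1
    zify at h3
    linarith
  exact_mod_cast h4

theorem lists_sum62 (n : ℕ) (σ : ℕ → ℕ)
    (hσ : ∀ u ∈ range n, ∀ v ∈ range n, σ u = σ v → u = v) :
    ∑ v ∈ range n, ((dl g (range n) v).card + (pl g σ (range n) v).card) = n.choose 2 := by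
  rw [← lists_sum (g := g) n, sum_add_distrib, sum_add_distrib]
  congr 1
  have h1 : ∀ v, (pl g σ (range n) v).card =
      ∑ u ∈ range n, if C g v u ∧ σ v < σ u then 1 else 0 := fun v => card_filter _ _
  have h2 : ∀ v, (fl g (range n) v).card =
      ∑ u ∈ range n, if v < u ∧ g v u = false then 1 else 0 := fun v => card_filter _ _
  simp only [h1, h2]
  have h3 : ∀ v ∈ range n, (∑ u ∈ range n, if C g v u ∧ σ v < σ u then 1 else 0) =
      (∑ u ∈ range n, if (v < u ∧ g v u = false) ∧ σ v < σ u then 1 else 0) +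
      ∑ u ∈ range n, if (u < v ∧ g u v = false) ∧ σ v < σ u then 1 else 0 := by
    intro v _
    rw [← sum_add_distrib]
    apply sum_congr rfl
    intro u _
    unfold C
    by_cases a1 : v < u <;> by_cases a2 : u < v <;> by_cases a3 : σ v < σ u <;>
      by_cases a4 : g v u = false <;> by_cases a5 : g u v = false <;> simp [a1, a2, a3, a4, a5]
    all_goals omega
  rw [sum_congr rfl h3, sum_add_distrib,
    sum_comm (f := fun v u => if (u < v ∧ g u v = false) ∧ σ v < σ u then 1 else 0),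
    ← sum_add_distrib]
  apply sum_congr rfl
  intro v hv
  rw [← sum_add_distrib]
  apply sum_congr rfl
  intro u hu
  by_cases a1 : v < u ∧ g v u = false
  · have a2 : σ v ≠ σ u := fun h => by
      have := hσ v hv u hu h
      omega
    rcases lt_or_gt_of_ne a2 with h | h
    · simp [a1, h, h.not_gt]
    · simp [a1, h, h.not_gt]
  · rw [if_neg (by tauto), if_neg (by tauto), if_neg a1]

/-- The bound for 3-graphs on the vertices `0, ..., n - 1`. -/
theorem core62 (n : ℕ) (H : Finset (Finset ℕ)) (hH : H ⊆ (range n).powersetCard 3)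
    (hE : ∀ a b c : ℕ, a < b → b < c → c < n → (({a, b, c} : Finset ℕ) ∈ H ↔
      ¬ (g a c = true ∧ g b c = true) ∧ ¬ (g a b = false ∧ g a c = false ∧ g b c = false)))
    (hK : ∀ a b c d : ℕ, a < b → b < c → c < d → d < n → ¬ (({a, b, c} : Finset ℕ) ∈ H ∧
      ({a, b, d} : Finset ℕ) ∈ H ∧ ({a, c, d} : Finset ℕ) ∈ H ∧ ({b, c, d} : Finset ℕ) ∈ H)) :
    H.card + turan n ≤ n.choose 3 := by
  rcases Nat.eq_zero_or_pos n with rfl | hn
  · have h0 : H.card ≤ ((range 0).powersetCard 3).card := card_le_card hH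
    rw [card_powersetCard, card_range] at h0
    have : turan 0 = 0 := by decide
    rw [this]
    exact h0
  have hcov : Cov g (range n) := by
    intro Q hQ hQ4
    let f := Q.orderEmbOfFin hQ4
    have hf' : ∀ i, f i ∈ Q := fun i => Q.orderEmbOfFin_mem hQ4 i
    have hfl : ∀ i j, i < j → f i < f j := fun i j h => (Q.orderEmbOfFin hQ4).strictMono h
    have l01 := hfl 0 1 (by decide)
    have l12 := hfl 1 2 (by decide)
    have l23 := hfl 2 3 (by decide)
    have l3 := mem_range.1 (hQ (hf' 3))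
    have hK' := hK (f 0) (f 1) (f 2) (f 3) l01 l12 l23 l3
    have key : ∀ i j k, i < j → j < k → f k < n → ¬ ({f i, f j, f k} : Finset ℕ) ∈ H →
        ∃ x ∈ Q, ∃ y ∈ Q, ∃ z ∈ Q, x ≠ y ∧
        ((x < z ∧ y < z ∧ g x z = true ∧ g y z = true) ∨ (C g x y ∧ C g x z ∧ C g y z)) := by
      intro i j k hij hjk hk hnot
      have l1 := hfl i j hij
      have l2 := hfl j k hjk
      rw [hE (f i) (f j) (f k) l1 l2 hk, not_and_or, not_not, not_not] at hnot
      refine ⟨f i, hf' i, f j, hf' j, f k, hf' k, l1.ne, ?_⟩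
      rcases hnot with h | h
      · exact Or.inl ⟨l1.trans l2, l2, h.1, h.2⟩
      · exact Or.inr ⟨(C_of_lt l1).2 h.1, (C_of_lt (l1.trans l2)).2 h.2.1, (C_of_lt l2).2 h.2.2⟩
    by_cases k1 : ({f 0, f 1, f 2} : Finset ℕ) ∈ H
    · by_cases k2 : ({f 0, f 1, f 3} : Finset ℕ) ∈ H
      · by_cases k3 : ({f 0, f 2, f 3} : Finset ℕ) ∈ H
        · by_cases k4 : ({f 1, f 2, f 3} : Finset ℕ) ∈ H
          · exact absurd ⟨k1, k2, k3, k4⟩ hK'
          · exact key 1 2 3 (by decide) (by decide) l3 k4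
        · exact key 0 2 3 (by decide) (by decide) l3 k3
      · exact key 0 1 3 (by decide) (by decide) l3 k2
    · exact key 0 1 2 (by decide) (by decide) (l23.trans l3) k1
  obtain ⟨σ, hσ, _⟩ := exists_peo (n - 1) (range n) (by rw [card_range]; omega) hcov 0
    (mem_range.2 hn)
  have hc := cost_of_deficit n (fun v => (dl g (range n) v).card)
    (fun v => (pl g σ (range n) v).card) (lists_sum62 n σ hσ.inj) (by
      intro i _ hi
      have := deficit62 i (range n) σ hσ hcov (by rw [card_range]; omega)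
      unfold ddef val at this
      rw [sum_add_distrib]
      exact this)
  -- the triples which are not edges
  set D : Finset (Σ _ : ℕ, Finset ℕ) :=
    (range n).sigma fun v => (dl g (range n) v).powersetCard 2 with hD
  set F : Finset (Σ _ : ℕ, Finset ℕ) :=
    (range n).sigma fun v => (pl g σ (range n) v).powersetCard 2 with hF
  have hDc : D.card + F.card = ∑ v ∈ range n, ((dl g (range n) v).card.choose 2 +
      (pl g σ (range n) v).card.choose 2) := by
    rw [hD, hF, card_sigma, card_sigma, ← sum_add_distrib]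
    simp only [card_powersetCard]
  set f : (Σ _ : ℕ, Finset ℕ) → Finset ℕ := fun p => insert p.1 p.2 with hf
  have pair : ∀ p : Finset ℕ, p.card = 2 → ∃ a b, a < b ∧ p = {a, b} := by
    intro p hp
    obtain ⟨a, b, hab, rfl⟩ := card_eq_two.1 hp
    rcases lt_or_gt_of_ne hab with h | h
    · exact ⟨a, b, h, rfl⟩
    · exact ⟨b, a, h, pair_comm a b⟩
  have hDm : ∀ p ∈ D, ∃ a b c, a < b ∧ b < c ∧ c < n ∧ g a c = true ∧ g b c = true ∧
      p = ⟨c, {a, b}⟩ := by
    rintro ⟨v, q⟩ hp
    rw [hD, mem_sigma, mem_powersetCard] at hp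
    obtain ⟨a, b, hab, rfl⟩ := pair q hp.2.2
    have ha : a ∈ dl g (range n) v := hp.2.1 (by simp)
    have hb : b ∈ dl g (range n) v := hp.2.1 (by simp)
    rw [mem_dl] at ha hb
    exact ⟨a, b, v, hab, hb.2.1, mem_range.1 hp.1, ha.2.2, hb.2.2, rfl⟩
  have hFm : ∀ p ∈ F, ∃ v x y, x ≠ y ∧ v < n ∧ x < n ∧ y < n ∧ C g v x ∧ C g v y ∧ C g x y ∧
      σ v < σ x ∧ σ v < σ y ∧ p = ⟨v, {x, y}⟩ := by
    rintro ⟨v, q⟩ hp
    rw [hF, mem_sigma, mem_powersetCard] at hp
    obtain ⟨x, y, hxy, rfl⟩ := pair q hp.2.2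
    have hx : x ∈ pl g σ (range n) v := hp.2.1 (by simp)
    have hy : y ∈ pl g σ (range n) v := hp.2.1 (by simp)
    rw [mem_pl] at hx hy
    exact ⟨v, x, y, hxy.ne, mem_range.1 hp.1, mem_range.1 hx.1, mem_range.1 hy.1, hx.2.1, hy.2.1,
      hσ.clq v hp.1 x hx.1 y hy.1 hx.2.1.symm hy.2.1.symm hx.2.2 hy.2.2 hxy.ne, hx.2.2, hy.2.2,
      rfl⟩
  have hfD : ∀ a b c : ℕ, f ⟨c, {a, b}⟩ = {a, b, c} := by
    intro a b c
    ext x
    simp only [hf, mem_insert, mem_singleton]
    tauto
  -- a triangle of the complement, sorted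
  have hsort : ∀ v x y : ℕ, v < n → x < n → y < n → C g v x → C g v y → C g x y →
      ∃ a b c, a < b ∧ b < c ∧ c < n ∧ g a b = false ∧ g a c = false ∧ g b c = false ∧
        ({v, x, y} : Finset ℕ) = {a, b, c} := by
    intro v x y hv hx hy h1 h2 h3
    have hall : ∀ p ∈ ({v, x, y} : Finset ℕ), ∀ q ∈ ({v, x, y} : Finset ℕ), p ≠ q → C g p q := by
      intro p hp q hq hpq
      simp only [mem_insert, mem_singleton] at hp hq
      rcases hp with rfl | rfl | rfl <;> rcases hq with rfl | rfl | rfl <;>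
        first
        | exact absurd rfl hpq
        | exact h1
        | exact h2
        | exact h3
        | exact h1.symm
        | exact h2.symm
        | exact h3.symm
    have hlt : ∀ p ∈ ({v, x, y} : Finset ℕ), p < n := by
      intro p hp
      simp only [mem_insert, mem_singleton] at hp
      rcases hp with rfl | rfl | rfl <;> assumption
    obtain ⟨a, b, c, hab, hbc, he⟩ := exists_sorted (e := ({v, x, y} : Finset ℕ))
      (card_eq_three.2 ⟨v, x, y, h1.ne, h2.ne, h3.ne, rfl⟩)
    rw [he] at hall hlt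
    exact ⟨a, b, c, hab, hbc, hlt c (by simp),
      (C_of_lt hab).1 (hall a (by simp) b (by simp) hab.ne),
      (C_of_lt (hab.trans hbc)).1 (hall a (by simp) c (by simp) (hab.trans hbc).ne),
      (C_of_lt hbc).1 (hall b (by simp) c (by simp) hbc.ne), he⟩
  have hDi : (D.image f).card = D.card := by
    apply card_image_of_injOn
    intro p hp q hq hpq
    obtain ⟨a, b, c, h1, h2, _, _, _, rfl⟩ := hDm p hp
    obtain ⟨a', b', c', h1', h2', _, _, _, rfl⟩ := hDm q hq
    rw [hfD, hfD] at hpq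
    obtain ⟨rfl, rfl, rfl⟩ := sorted_inj h1 h2 h1' h2' hpq
    rfl
  have hFi : (F.image f).card = F.card := by
    apply card_image_of_injOn
    intro p hp q hq hpq
    obtain ⟨v, x, y, hxy, _, _, _, c1, c2, _, s1, s2, rfl⟩ := hFm p hp
    obtain ⟨v', x', y', hxy', _, _, _, c1', c2', _, s1', s2', rfl⟩ := hFm q hq
    have hpq' : ({v, x, y} : Finset ℕ) = {v', x', y'} := hpq
    have hvv : v = v' := by
      have m1 : v ∈ ({v', x', y'} : Finset ℕ) := by rw [← hpq']; simp
      have m2 : v' ∈ ({v, x, y} : Finset ℕ) := by rw [hpq']; simp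
      simp only [mem_insert, mem_singleton] at m1 m2
      rcases m1 with h | h | h
      · exact h
      · rcases m2 with h' | h' | h'
        · exact h'.symm
        · rw [← h] at s1'
          rw [← h'] at s1
          omega
        · rw [← h] at s1'
          rw [← h'] at s2
          omega
      · rcases m2 with h' | h' | h'
        · exact h'.symm
        · rw [← h] at s2'
          rw [← h'] at s1
          omega
        · rw [← h] at s2'
          rw [← h'] at s2
          omega
    subst hvv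
    have e1 : ({x, y} : Finset ℕ) = ({v, x, y} : Finset ℕ).erase v := by
      rw [erase_insert]
      simp [c1.ne, c2.ne]
    have e2 : ({x', y'} : Finset ℕ) = ({v, x', y'} : Finset ℕ).erase v := by
      rw [erase_insert]
      simp [c1'.ne, c2'.ne]
    rw [e1, e2, hpq']
  have hDF : Disjoint (D.image f) (F.image f) := by
    rw [disjoint_left]
    intro e h1 h2
    rw [mem_image] at h1 h2
    obtain ⟨p, hp, rfl⟩ := h1
    obtain ⟨q, hq, hpq⟩ := h2
    obtain ⟨a, b, c, h1, h2, _, h3, _, rfl⟩ := hDm p hp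
    obtain ⟨v, x, y, _, hv, hx, hy, c1, c2, c3, _, _, rfl⟩ := hFm q hq
    obtain ⟨a', b', c', l1, l2, _, _, e2, _, he⟩ := hsort v x y hv hx hy c1 c2 c3
    rw [hfD a b c] at hpq
    have hpq' : ({v, x, y} : Finset ℕ) = {a, b, c} := hpq
    rw [he] at hpq'
    obtain ⟨rfl, rfl, rfl⟩ := sorted_inj l1 l2 h1 h2 hpq'
    rw [h3] at e2
    simp at e2
  have hdisj : Disjoint H (D.image f ∪ F.image f) := by
    rw [disjoint_left]
    intro e he h1
    rw [mem_union, mem_image, mem_image] at h1
    rcases h1 with ⟨p, hp, rfl⟩ | ⟨p, hp, rfl⟩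
    · obtain ⟨a, b, c, h1, h2, h3, h4, h5, rfl⟩ := hDm p hp
      rw [hfD, hE a b c h1 h2 h3] at he
      exact he.1 ⟨h4, h5⟩
    · obtain ⟨v, x, y, _, hv, hx, hy, c1, c2, c3, _, _, rfl⟩ := hFm p hp
      obtain ⟨a', b', c', l1, l2, l3, e1, e2, e3, he'⟩ := hsort v x y hv hx hy c1 c2 c3
      have he'' : ({v, x, y} : Finset ℕ) ∈ H := he
      rw [he', hE a' b' c' l1 l2 l3] at he''
      exact he''.2 ⟨e1, e2, e3⟩
  have hsub : H ∪ (D.image f ∪ F.image f) ⊆ (range n).powersetCard 3 := by
    have h3 : ∀ a b c : ℕ, a < b → b < c → c < n →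
        ({a, b, c} : Finset ℕ) ∈ (range n).powersetCard 3 := by
      intro a b c h1 h2 h3
      rw [mem_powersetCard]
      constructor
      · intro x hx
        simp only [mem_insert, mem_singleton] at hx
        rw [mem_range]
        omega
      · rw [card_eq_three]
        exact ⟨a, b, c, h1.ne, (h1.trans h2).ne, h2.ne, rfl⟩
    apply union_subset hH
    apply union_subset
    · intro e he
      rw [mem_image] at he
      obtain ⟨p, hp, rfl⟩ := he
      obtain ⟨a, b, c, h1, h2, h3', _, _, rfl⟩ := hDm p hp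
      rw [hfD]
      exact h3 a b c h1 h2 h3'
    · intro e he
      rw [mem_image] at he
      obtain ⟨p, hp, rfl⟩ := he
      obtain ⟨v, x, y, _, hv, hx, hy, c1, c2, c3, _, _, rfl⟩ := hFm p hp
      obtain ⟨a', b', c', l1, l2, l3, _, _, _, he'⟩ := hsort v x y hv hx hy c1 c2 c3
      change ({v, x, y} : Finset ℕ) ∈ _
      rw [he']
      exact h3 a' b' c' l1 l2 l3
  have := card_le_card hsub
  rw [card_union_of_disjoint hdisj, card_union_of_disjoint hDF, hDi, hFi, card_powersetCard,
    card_range] at this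
  omega

open scoped Classical in
/-- **Turán's bound for the rule `{1, 2, 3, 4, 5}`.** -/
theorem main62 {n : ℕ} (G : Fin n → Fin n → Prop) (H : Finset (Finset (Fin n)))
    (h3 : ∀ e ∈ H, e.card = 3)
    (hK : ∀ S : Finset (Fin n), S.card = 4 → ∃ s ⊆ S, s.card = 3 ∧ s ∉ H)
    (hH : ∀ a b c : Fin n, a < b → b < c → (({a, b, c} : Finset (Fin n)) ∈ H ↔
      ¬ (G a c ∧ G b c) ∧ (G a b ∨ G a c ∨ G b c))) :
    H.card + turan n ≤ n.choose 3 := by
  set g : ℕ → ℕ → Bool := fun x y => decide (∃ (hx : x < n) (hy : y < n), G ⟨x, hx⟩ ⟨y, hy⟩)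
    with hg
  have hgG : ∀ a b : Fin n, g a b = true ↔ G a b := by
    intro a b
    simp [hg]
  set H' : Finset (Finset ℕ) := H.image fun e => e.map Fin.valEmbedding with hH'
  have hc : H'.card = H.card := by
    apply card_image_of_injective
    intro e e' h
    exact map_injective _ h
  have hmem : ∀ a b c : Fin n, ({(a : ℕ), (b : ℕ), (c : ℕ)} : Finset ℕ) ∈ H' ↔
      ({a, b, c} : Finset (Fin n)) ∈ H := by
    intro a b c
    have e1 : ({(a : ℕ), (b : ℕ), (c : ℕ)} : Finset ℕ) =
        ({a, b, c} : Finset (Fin n)).map Fin.valEmbedding := by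
      simp [map_insert]
    rw [hH', e1, mem_image]
    constructor
    · rintro ⟨e, he, hee⟩
      rw [← map_injective _ hee]
      exact he
    · intro h
      exact ⟨_, h, rfl⟩
  rw [← hc]
  apply core62 (g := g)
  · intro e he
    rw [hH', mem_image] at he
    obtain ⟨e', he', rfl⟩ := he
    rw [mem_powersetCard, card_map]
    refine ⟨?_, h3 e' he'⟩
    intro x hx
    rw [mem_map] at hx
    obtain ⟨y, _, rfl⟩ := hx
    rw [mem_range]
    exact y.2
  · intro a b c hab hbc hc
    have := hmem ⟨a, by omega⟩ ⟨b, by omega⟩ ⟨c, hc⟩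
    simp only at this
    rw [this, hH _ _ _ (by simpa using hab) (by simpa using hbc), ← hgG, ← hgG, ← hgG]
    simp only
    rw [← Bool.not_eq_true (g a b), ← Bool.not_eq_true (g a c), ← Bool.not_eq_true (g b c)]
    tauto
  · intro a b c d hab hbc hcd hd hall
    have e1 := hmem ⟨a, by omega⟩ ⟨b, by omega⟩ ⟨c, by omega⟩
    have e2 := hmem ⟨a, by omega⟩ ⟨b, by omega⟩ ⟨d, hd⟩
    have e3 := hmem ⟨a, by omega⟩ ⟨c, by omega⟩ ⟨d, hd⟩
    have e4 := hmem ⟨b, by omega⟩ ⟨c, by omega⟩ ⟨d, hd⟩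
    simp only at e1 e2 e3 e4
    rw [e1, e2, e3, e4] at hall
    have hab' : (⟨a, by omega⟩ : Fin n) < ⟨b, by omega⟩ := by simpa using hab
    have hbc' : (⟨b, by omega⟩ : Fin n) < ⟨c, by omega⟩ := by simpa using hbc
    have hcd' : (⟨c, by omega⟩ : Fin n) < ⟨d, hd⟩ := by simpa using hcd
    exact k4 hK hab'.ne (hab'.trans hbc').ne (hab'.trans (hbc'.trans hcd')).ne hbc'.ne
      (hbc'.trans hcd').ne hcd'.ne hall

end Pool.Agent.TH173.TO
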