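import Mathlib

/-!
# The complement of the graph of the rule `{1, 2, 3, 4, 5}` is chordal

For a graph `g` on the natural numbers (only `g u v` with `u < v` is used) `C g` is the complement.
If every set of four vertices contains a triangle of the complement or a vertex with two smaller
neighbours then the complement has simplicial vertices outside any clique, and so elimination
orders with any given last vertex; the sum `val` does not depend on the elimination order.
-/

set_option autoImplicit false
open Finset

namespace Pool.Agent.TH173.TO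

variable {g : ℕ → ℕ → Bool}

/-- non-adjacency -/
def C (g : ℕ → ℕ → Bool) (u v : ℕ) : Prop := (u < v ∧ g u v = false) ∨ (v < u ∧ g v u = false)

instance (u v : ℕ) : Decidable (C g u v) := by unfold C; infer_instance

theorem C.symm {u v : ℕ} (h : C g u v) : C g v u := by
  unfold C at h ⊢
  tauto

theorem C.ne {u v : ℕ} (h : C g u v) : u ≠ v := by
  unfold C at h
  omega

theorem C_of_lt {u v : ℕ} (h : u < v) : C g u v ↔ g u v = false := by
  unfold C
  constructor
  · rintro (⟨_, h2⟩ | ⟨h1, _⟩)
    · exact h2
    · omega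
  · intro h2
    exact Or.inl ⟨h, h2⟩

/-- every set of four vertices has a vertex with two smaller neighbours or three vertices which
are pairwise non-adjacent -/
def Cov (g : ℕ → ℕ → Bool) (T : Finset ℕ) : Prop :=
  ∀ Q ⊆ T, Q.card = 4 → ∃ x ∈ Q, ∃ y ∈ Q, ∃ z ∈ Q, x ≠ y ∧
    ((x < z ∧ y < z ∧ g x z = true ∧ g y z = true) ∨ (C g x y ∧ C g x z ∧ C g y z))

theorem Cov.mono {T T' : Finset ℕ} (h : Cov g T) (h' : T' ⊆ T) : Cov g T' :=
  fun Q hQ => h Q (hQ.trans h')

theorem cov4 {T : Finset ℕ} (h : Cov g T) {a b c d : ℕ} (ha : a ∈ T) (hb : b ∈ T) (hc : c ∈ T)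
    (hd : d ∈ T) (hab : a ≠ b) (hac : a ≠ c) (had : a ≠ d) (hbc : b ≠ c) (hbd : b ≠ d)
    (hcd : c ≠ d) : ∃ x y z, (x = a ∨ x = b ∨ x = c ∨ x = d) ∧ (y = a ∨ y = b ∨ y = c ∨ y = d) ∧
      (z = a ∨ z = b ∨ z = c ∨ z = d) ∧ x ≠ y ∧
      ((x < z ∧ y < z ∧ ¬ C g x z ∧ ¬ C g y z) ∨ (C g x y ∧ C g x z ∧ C g y z)) := by
  obtain ⟨x, hx, y, hy, z, hz, hxy, hh⟩ := h {a, b, c, d} (by
    intro v hv
    simp only [mem_insert, mem_singleton] at hv
    rcases hv with rfl | rfl | rfl | rfl <;> assumption) (by
    rw [card_insert_of_notMem, card_insert_of_notMem, card_pair hcd]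
    · simp [hbc, hbd]
    · simp [hab, hac, had])
  simp only [mem_insert, mem_singleton] at hx hy hz
  refine ⟨x, y, z, hx, hy, hz, hxy, ?_⟩
  rcases hh with ⟨h1, h2, h3, h4⟩ | h
  · left
    rw [C_of_lt h1, C_of_lt h2, h3, h4]
    simp [h1, h2]
  · exact Or.inr h

theorem noC4 {T : Finset ℕ} (h : Cov g T) {a b c d : ℕ} (ha : a ∈ T) (hb : b ∈ T) (hc : c ∈ T)
    (hd : d ∈ T) (hac : a ≠ c) (hbd : b ≠ d) (h1 : C g a b) (h2 : C g b c) (h3 : C g c d)
    (h4 : C g d a) : C g a c ∨ C g b d := by
  by_contra hcon
  push Not at hcon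
  obtain ⟨n1, n2⟩ := hcon
  have n1' : ¬ C g c a := fun h => n1 h.symm
  have n2' : ¬ C g d b := fun h => n2 h.symm
  have h1' := h1.symm
  have h2' := h2.symm
  have h3' := h3.symm
  have h4' := h4.symm
  obtain ⟨x, y, z, hx, hy, hz, hxy, hh⟩ := cov4 h ha hb hc hd h1.ne hac h4'.ne h2.ne hbd h3.ne
  rcases hh with ⟨l1, l2, m1, m2⟩ | ⟨m0, m1, m2⟩
  · rcases hz with rfl | rfl | rfl | rfl
    · have : x = c := by
        rcases hx with rfl | rfl | rfl | rfl
        · omega
        · exact absurd h1' m1
        · rfl
        · exact absurd h4 m1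
      have : y = c := by
        rcases hy with rfl | rfl | rfl | rfl
        · omega
        · exact absurd h1' m2
        · rfl
        · exact absurd h4 m2
      omega
    · have : x = d := by
        rcases hx with rfl | rfl | rfl | rfl
        · exact absurd h1 m1
        · omega
        · exact absurd h2' m1
        · rfl
      have : y = d := by
        rcases hy with rfl | rfl | rfl | rfl
        · exact absurd h1 m2
        · omega
        · exact absurd h2' m2
        · rfl
      omega
    · have : x = a := by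
        rcases hx with rfl | rfl | rfl | rfl
        · rfl
        · exact absurd h2 m1
        · omega
        · exact absurd h3' m1
      have : y = a := by
        rcases hy with rfl | rfl | rfl | rfl
        · rfl
        · exact absurd h2 m2
        · omega
        · exact absurd h3' m2
      omega
    · have : x = b := by
        rcases hx with rfl | rfl | rfl | rfl
        · exact absurd h4' m1
        · rfl
        · exact absurd h3 m1
        · omega
      have : y = b := by
        rcases hy with rfl | rfl | rfl | rfl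
        · exact absurd h4' m2
        · rfl
        · exact absurd h3 m2
        · omega
      omega
  · have e1 := m0.ne
    have e2 := m1.ne
    have e3 := m2.ne
    rcases hx with rfl | rfl | rfl | rfl <;> rcases hy with rfl | rfl | rfl | rfl <;>
      first
      | exact absurd rfl e1
      | exact absurd m0 n1
      | exact absurd m0 n1'
      | exact absurd m0 n2
      | exact absurd m0 n2'
      | (rcases hz with rfl | rfl | rfl | rfl <;>
          first
          | exact absurd rfl e2
          | exact absurd rfl e3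
          | exact absurd m1 n1
          | exact absurd m1 n1'
          | exact absurd m1 n2
          | exact absurd m1 n2'
          | exact absurd m2 n1
          | exact absurd m2 n1'
          | exact absurd m2 n2
          | exact absurd m2 n2')

/-- the induced paths with four vertices in the complement -/
theorem p4 {T : Finset ℕ} (h : Cov g T) {a b c d : ℕ} (ha : a ∈ T) (hb : b ∈ T) (hc : c ∈ T)
    (hd : d ∈ T) (hac : a ≠ c) (had : a ≠ d) (hbd : b ≠ d) (h1 : C g a b) (h2 : C g b c)
    (h3 : C g c d) (n1 : ¬ C g a c) (n2 : ¬ C g a d) (n3 : ¬ C g b d) :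
    (c < a ∧ d < a) ∨ (a < d ∧ b < d) := by
  have n1' : ¬ C g c a := fun h => n1 h.symm
  have n2' : ¬ C g d a := fun h => n2 h.symm
  have n3' : ¬ C g d b := fun h => n3 h.symm
  have h1' := h1.symm
  have h2' := h2.symm
  have h3' := h3.symm
  obtain ⟨x, y, z, hx, hy, hz, hxy, hh⟩ := cov4 h ha hb hc hd h1.ne hac had h2.ne hbd h3.ne
  rcases hh with ⟨l1, l2, m1, m2⟩ | ⟨m0, m1, m2⟩
  · rcases hz with rfl | rfl | rfl | rfl
    · have hx' : x = c ∨ x = d := by
        rcases hx with rfl | rfl | rfl | rfl
        · omega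
        · exact absurd h1' m1
        · exact Or.inl rfl
        · exact Or.inr rfl
      have hy' : y = c ∨ y = d := by
        rcases hy with rfl | rfl | rfl | rfl
        · omega
        · exact absurd h1' m2
        · exact Or.inl rfl
        · exact Or.inr rfl
      omega
    · exfalso
      have : x = d := by
        rcases hx with rfl | rfl | rfl | rfl
        · exact absurd h1 m1
        · omega
        · exact absurd h2' m1
        · rfl
      have : y = d := by
        rcases hy with rfl | rfl | rfl | rfl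
        · exact absurd h1 m2
        · omega
        · exact absurd h2' m2
        · rfl
      omega
    · exfalso
      have : x = a := by
        rcases hx with rfl | rfl | rfl | rfl
        · rfl
        · exact absurd h2 m1
        · omega
        · exact absurd h3' m1
      have : y = a := by
        rcases hy with rfl | rfl | rfl | rfl
        · rfl
        · exact absurd h2 m2
        · omega
        · exact absurd h3' m2
      omega
    · have hx' : x = a ∨ x = b := by
        rcases hx with rfl | rfl | rfl | rfl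
        · exact Or.inl rfl
        · exact Or.inr rfl
        · exact absurd h3 m1
        · omega
      have hy' : y = a ∨ y = b := by
        rcases hy with rfl | rfl | rfl | rfl
        · exact Or.inl rfl
        · exact Or.inr rfl
        · exact absurd h3 m2
        · omega
      omega
  · exfalso
    have e1 := m0.ne
    have e2 := m1.ne
    have e3 := m2.ne
    rcases hx with rfl | rfl | rfl | rfl <;> rcases hy with rfl | rfl | rfl | rfl <;>
      first
      | exact absurd rfl e1
      | exact absurd m0 n1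
      | exact absurd m0 n1'
      | exact absurd m0 n2
      | exact absurd m0 n2'
      | exact absurd m0 n3
      | exact absurd m0 n3'
      | (rcases hz with rfl | rfl | rfl | rfl <;>
          first
          | exact absurd rfl e2
          | exact absurd rfl e3
          | exact absurd m1 n1
          | exact absurd m1 n1'
          | exact absurd m1 n2
          | exact absurd m1 n2'
          | exact absurd m1 n3
          | exact absurd m1 n3'
          | exact absurd m2 n1
          | exact absurd m2 n1'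
          | exact absurd m2 n2
          | exact absurd m2 n2'
          | exact absurd m2 n3
          | exact absurd m2 n3')

/-- the vertices which separate the largest vertex from its non-neighbours form a clique -/
theorem sep_clique {T : Finset ℕ} (h : Cov g T) {M q q' k k' : ℕ} (hM : M ∈ T)
    (hmax : ∀ v ∈ T, v ≤ M) (hq : q ∈ T) (hq' : q' ∈ T) (hk : k ∈ T) (hk' : k' ∈ T)
    (hqM : C g q M) (hqM' : C g q' M) (hkM : k ≠ M) (hkn : ¬ C g k M) (hkM' : k' ≠ M)
    (hkn' : ¬ C g k' M) (h1 : C g q k) (h2 : C g q' k') (hqq : q ≠ q') : C g q q' := by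
  by_contra hn
  have a1 : ¬ C g q' k := by
    intro h3
    rcases noC4 h hq hk hq' hM hqq hkM h1 h3.symm hqM' hqM.symm with h4 | h4
    · exact hn h4
    · exact hkn h4
  have a2 : ¬ C g q k' := by
    intro h3
    rcases noC4 h hq hk' hq' hM hqq hkM' h3 h2.symm hqM' hqM.symm with h4 | h4
    · exact hn h4
    · exact hkn' h4
  have b1 : k ≠ q' := by
    rintro rfl
    exact hn h1
  have b2 : k' ≠ q := by
    rintro rfl
    exact hn h2.symm
  have c1 := p4 h hk hq hM hq' hkM b1 hqq h1.symm hqM hqM'.symm hkn (fun h => a1 h.symm) hn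
  have c2 := p4 h hk' hq' hM hq hkM' b2 hqq.symm h2.symm hqM' hqM.symm hkn' (fun h => a2 h.symm)
    (fun h => hn h.symm)
  have := hmax k hk
  have := hmax k' hk'
  omega

/-- the neighbours of `x` in the complement are pairwise adjacent in the complement -/
def Simp (g : ℕ → ℕ → Bool) (T : Finset ℕ) (x : ℕ) : Prop :=
  ∀ u ∈ T, ∀ w ∈ T, C g u x → C g w x → u ≠ w → C g u w

def Clq (g : ℕ → ℕ → Bool) (Q : Finset ℕ) : Prop := ∀ u ∈ Q, ∀ w ∈ Q, u ≠ w → C g u w

/-- **Dirac's theorem** for these graphs. -/
theorem dirac : ∀ (n : ℕ) (T : Finset ℕ), T.card = n → Cov g T → ∀ Q ⊆ T, Clq g Q → Q ≠ T →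
    ∃ x ∈ T, x ∉ Q ∧ Simp g T x := by
  intro n
  induction n using Nat.strong_induction_on with
  | _ n ih =>
  intro T hT hcov Q hQ hQc hQT
  have hne : T.Nonempty := by
    rw [nonempty_iff_ne_empty]
    rintro rfl
    exact hQT (subset_empty.1 hQ)
  obtain ⟨M, hM, hmax⟩ : ∃ M ∈ T, ∀ v ∈ T, v ≤ M :=
    ⟨T.max' hne, max'_mem _ _, fun v hv => le_max' _ v hv⟩
  have hcM : (T.erase M).card < n := by
    rw [card_erase_of_mem hM]
    have := card_pos.2 hne
    omega
  by_cases huni : ∀ v ∈ T, v ≠ M → C g v M
  · by_cases hQM : Q.erase M = T.erase M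
    · -- `T` is a clique
      have hTc : Clq g T := by
        intro u hu w hw huw
        by_cases h1 : u = M
        · rw [h1]
          exact (huni w hw (fun h => huw (h1.trans h.symm))).symm
        · by_cases h2 : w = M
          · rw [h2]
            exact huni u hu h1
          · have h3 : u ∈ Q := mem_of_mem_erase (by rw [hQM]; exact mem_erase.2 ⟨h1, hu⟩)
            have h4 : w ∈ Q := mem_of_mem_erase (by rw [hQM]; exact mem_erase.2 ⟨h2, hw⟩)
            exact hQc u h3 w h4 huw
      obtain ⟨x, hx, hxQ⟩ : ∃ x ∈ T, x ∉ Q := by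
        by_contra hno
        push Not at hno
        exact hQT (Subset.antisymm hQ hno)
      exact ⟨x, hx, hxQ, fun u hu w hw _ _ huw => hTc u hu w hw huw⟩
    · obtain ⟨x, hx, hxQ, hs⟩ := ih _ hcM (T.erase M) rfl (hcov.mono (erase_subset _ _))
        (Q.erase M) (erase_subset_erase M hQ)
        (fun u hu w hw => hQc u (mem_of_mem_erase hu) w (mem_of_mem_erase hw)) hQM
      have hxT := mem_of_mem_erase hx
      have hxM := ne_of_mem_erase hx
      refine ⟨x, hxT, fun h => hxQ (mem_erase.2 ⟨hxM, h⟩), ?_⟩
      intro u hu w hw hux hwx huw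
      by_cases h1 : u = M
      · rw [h1]
        exact (huni w hw (fun h => huw (h1.trans h.symm))).symm
      · by_cases h2 : w = M
        · rw [h2]
          exact huni u hu h1
        · exact hs u (mem_erase.2 ⟨h1, hu⟩) w (mem_erase.2 ⟨h2, hw⟩) hux hwx huw
  · push Not at huni
    obtain ⟨v0, hv0, hv0M, hv0n⟩ := huni
    -- a simplicial vertex which is not adjacent to `M`
    obtain ⟨x1, hx1, hx1M, hx1n, hs1⟩ : ∃ x ∈ T, x ≠ M ∧ ¬ C g x M ∧ Simp g T x := by
      set T2 := T.filter fun v => v ≠ M ∧ (¬ C g v M ∨ ∃ k ∈ T, k ≠ M ∧ ¬ C g k M ∧ C g v k)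
        with hT2
      have hT2T : T2 ⊆ T.erase M := by
        intro v hv
        rw [hT2, mem_filter] at hv
        exact mem_erase.2 ⟨hv.2.1, hv.1⟩
      have hd : T2.filter (fun v => C g v M) ≠ T2 := by
        intro h
        have : v0 ∈ T2 := by
          rw [hT2, mem_filter]
          exact ⟨hv0, hv0M, Or.inl hv0n⟩
        rw [← h, mem_filter] at this
        exact hv0n this.2
      obtain ⟨x, hx, hxd, hs⟩ := ih _ ((card_le_card hT2T).trans_lt hcM) T2 rfl
        (hcov.mono (hT2T.trans (erase_subset _ _))) (T2.filter fun v => C g v M)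
        (filter_subset _ _) (by
          intro q hq q' hq' hqq
          rw [mem_filter, hT2, mem_filter] at hq hq'
          obtain ⟨⟨h1, h2, h3⟩, h4⟩ := hq
          obtain ⟨⟨h1', h2', h3'⟩, h4'⟩ := hq'
          rcases h3 with h3 | ⟨k, hk, hkM, hkn, hqk⟩
          · exact absurd h4 h3
          rcases h3' with h3' | ⟨k', hk', hkM', hkn', hqk'⟩
          · exact absurd h4' h3'
          exact sep_clique hcov hM hmax h1 h1' hk hk' h4 h4' hkM hkn hkM' hkn' hqk hqk' hqq) hd
      have hxT := (mem_erase.1 (hT2T hx)).2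
      have hxM := (mem_erase.1 (hT2T hx)).1
      have hxn : ¬ C g x M := fun h => hxd (mem_filter.2 ⟨hx, h⟩)
      refine ⟨x, hxT, hxM, hxn, ?_⟩
      have hin : ∀ u ∈ T, C g u x → u ∈ T2 := by
        intro u hu hux
        rw [hT2, mem_filter]
        refine ⟨hu, ?_, ?_⟩
        · rintro rfl
          exact hxn hux.symm
        · by_cases h : C g u M
          · exact Or.inr ⟨x, hxT, hxM, hxn, hux⟩
          · exact Or.inl h
      intro u hu w hw hux hwx huw
      exact hs u (hin u hu hux) w (hin w hw hwx) hux hwx huw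
    by_cases hxQ : x1 ∈ Q
    · have hc1 : (T.erase x1).card < n := by
        rw [card_erase_of_mem hx1]
        have := card_pos.2 hne
        omega
      have hMN : M ∉ (T.erase x1).filter fun v => C g v x1 := by
        intro h
        exact hx1n (mem_filter.1 h).2.symm
      obtain ⟨x, hx, hxd, hs⟩ := ih _ hc1 (T.erase x1) rfl (hcov.mono (erase_subset _ _))
        ((T.erase x1).filter fun v => C g v x1) (filter_subset _ _) (by
          intro u hu w hw huw
          rw [mem_filter] at hu hw
          exact hs1 u (mem_of_mem_erase hu.1) w (mem_of_mem_erase hw.1) hu.2 hw.2 huw) (by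
          intro h
          rw [h] at hMN
          exact hMN (mem_erase.2 ⟨hx1M.symm, hM⟩))
      have hxT := mem_of_mem_erase hx
      have hxn : ¬ C g x x1 := fun h => hxd (mem_filter.2 ⟨hx, h⟩)
      refine ⟨x, hxT, ?_, ?_⟩
      · intro h
        exact hxn (hQc x h x1 hxQ (ne_of_mem_erase hx))
      · intro u hu w hw hux hwx huw
        have h1 : u ≠ x1 := by
          rintro rfl
          exact hxn hux.symm
        have h2 : w ≠ x1 := by
          rintro rfl
          exact hxn hwx.symm
        exact hs u (mem_erase.2 ⟨h1, hu⟩) w (mem_erase.2 ⟨h2, hw⟩) hux hwx huw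
    · exact ⟨x1, hx1, hxQ, hs1⟩

/-- `σ` is an elimination order of the complement -/
structure Peo (g : ℕ → ℕ → Bool) (σ : ℕ → ℕ) (T : Finset ℕ) : Prop where
  inj : ∀ u ∈ T, ∀ v ∈ T, σ u = σ v → u = v
  clq : ∀ v ∈ T, ∀ u ∈ T, ∀ w ∈ T, C g u v → C g w v → σ v < σ u → σ v < σ w → u ≠ w → C g u w

theorem Peo.mono {σ : ℕ → ℕ} {T T' : Finset ℕ} (h : Peo g σ T) (h' : T' ⊆ T) : Peo g σ T' where
  inj := fun u hu v hv => h.inj u (h' hu) v (h' hv)
  clq := fun v hv u hu w hw => h.clq v (h' hv) u (h' hu) w (h' hw)

/-- There is an elimination order with a given last vertex. -/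
theorem exists_peo : ∀ (n : ℕ) (T : Finset ℕ), T.card = n + 1 → Cov g T → ∀ t ∈ T,
    ∃ σ : ℕ → ℕ, Peo g σ T ∧ ∀ v ∈ T, v ≠ t → σ v < σ t := by
  intro n
  induction n with
  | zero =>
    intro T hT _ t ht
    obtain ⟨x, rfl⟩ := card_eq_one.1 hT
    rw [mem_singleton] at ht
    subst ht
    refine ⟨fun v => v, ⟨fun u _ v _ h => h, ?_⟩, ?_⟩
    · intro v hv u hu w hw h1
      rw [mem_singleton] at hv hu
      exact absurd (hu.trans hv.symm) h1.ne
    · intro v hv hvt
      rw [mem_singleton] at hv
      exact absurd hv hvt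
  | succ n ih =>
    intro T hT hcov t ht
    obtain ⟨x, hx, hxt, hs⟩ := dirac (n + 1 + 1) T hT hcov {t} (singleton_subset_iff.2 ht) (by
      intro u hu w hw huw
      rw [mem_singleton] at hu hw
      exact absurd (hu.trans hw.symm) huw) (by
      intro h
      rw [← h, card_singleton] at hT
      omega)
    rw [mem_singleton] at hxt
    obtain ⟨σ, hσ, hσt⟩ := ih (T.erase x) (by rw [card_erase_of_mem hx]; omega)
      (hcov.mono (erase_subset _ _)) t (mem_erase.2 ⟨Ne.symm hxt, ht⟩)
    refine ⟨fun v => if v = x then 0 else σ v + 1, ⟨?_, ?_⟩, ?_⟩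
    · intro u hu v hv huv
      by_cases h1 : u = x
      · by_cases h2 : v = x
        · rw [h1, h2]
        · simp [h1, h2] at huv
      · by_cases h2 : v = x
        · simp [h1, h2] at huv
        · simp only [h1, h2, if_false] at huv
          exact hσ.inj u (mem_erase.2 ⟨h1, hu⟩) v (mem_erase.2 ⟨h2, hv⟩) (by omega)
    · intro v hv u hu w hw hu' hw' h1 h2 huw
      by_cases hvx : v = x
      · rw [hvx] at hu' hw'
        exact hs u hu w hw hu' hw' huw
      · have hux : u ≠ x := by
          intro h
          simp [hvx, h] at h1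
        have hwx : w ≠ x := by
          intro h
          simp [hvx, h] at h2
        simp only [hvx, hux, hwx, if_false] at h1 h2
        exact hσ.clq v (mem_erase.2 ⟨hvx, hv⟩) u (mem_erase.2 ⟨hux, hu⟩) w
          (mem_erase.2 ⟨hwx, hw⟩) hu' hw' (by omega) (by omega) huw
    · intro v hv hvt
      by_cases hvx : v = x
      · simp [hvx, Ne.symm hxt]
      · simp only [hvx, Ne.symm hxt, if_false]
        have := hσt v (mem_erase.2 ⟨hvx, hv⟩) hvt
        omega

/-- the later neighbours in the complement -/
def pl (g : ℕ → ℕ → Bool) (σ : ℕ → ℕ) (T : Finset ℕ) (v : ℕ) : Finset ℕ :=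
  T.filter fun u => C g v u ∧ σ v < σ u

/-- the neighbours in the complement -/
def nb (g : ℕ → ℕ → Bool) (T : Finset ℕ) (v : ℕ) : Finset ℕ := T.filter fun u => C g v u

theorem mem_pl {σ : ℕ → ℕ} {T : Finset ℕ} {v u : ℕ} :
    u ∈ pl g σ T v ↔ u ∈ T ∧ C g v u ∧ σ v < σ u := by
  unfold pl
  rw [mem_filter]

theorem mem_nb {T : Finset ℕ} {v u : ℕ} : u ∈ nb g T v ↔ u ∈ T ∧ C g v u := by
  unfold nb
  rw [mem_filter]

/-- the deficit of the complement -/
def val (g : ℕ → ℕ → Bool) (σ : ℕ → ℕ) (T : Finset ℕ) (j : ℕ) : ℕ :=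
  ∑ v ∈ T, (j - (pl g σ T v).card)

theorem val_first {σ : ℕ → ℕ} {T : Finset ℕ} {y : ℕ} (hy : y ∈ T)
    (hmin : ∀ v ∈ T, v ≠ y → σ y < σ v) (j : ℕ) :
    val g σ T j = (j - (nb g T y).card) + val g σ (T.erase y) j := by
  unfold val
  rw [← sum_erase_add T _ hy, add_comm]
  congr 1
  · have : pl g σ T y = nb g T y := by
      ext u
      rw [mem_pl, mem_nb]
      constructor
      · rintro ⟨h1, h2, _⟩
        exact ⟨h1, h2⟩
      · rintro ⟨h1, h2⟩
        exact ⟨h1, h2, hmin u h1 h2.ne.symm⟩
    rw [this]
  · apply sum_congr rfl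
    intro v hv
    have : pl g σ T v = pl g σ (T.erase y) v := by
      ext u
      rw [mem_pl, mem_pl, mem_erase]
      constructor
      · rintro ⟨h1, h2, h3⟩
        refine ⟨⟨?_, h1⟩, h2, h3⟩
        rintro rfl
        have := hmin v (mem_of_mem_erase hv) (ne_of_mem_erase hv)
        omega
      · rintro ⟨h1, h2, h3⟩
        exact ⟨h1.2, h2, h3⟩
    rw [this]

theorem exists_first {σ : ℕ → ℕ} {T : Finset ℕ} (hinj : ∀ u ∈ T, ∀ v ∈ T, σ u = σ v → u = v)
    (hne : T.Nonempty) : ∃ y ∈ T, ∀ v ∈ T, v ≠ y → σ y < σ v := by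
  obtain ⟨y, hy, hmin⟩ := exists_min_image T σ hne
  refine ⟨y, hy, fun v hv hvy => lt_of_le_of_ne (hmin v hv) ?_⟩
  intro h
  exact hvy (hinj v hv y hy h.symm)

theorem first_simp {σ : ℕ → ℕ} {T : Finset ℕ} (h : Peo g σ T) {y : ℕ} (hy : y ∈ T)
    (hmin : ∀ v ∈ T, v ≠ y → σ y < σ v) : Simp g T y := by
  intro u hu w hw hux hwx huw
  exact h.clq y hy u hu w hw hux hwx (hmin u hu hux.ne) (hmin w hw hwx.ne) huw

theorem nb_erase_card {T : Finset ℕ} {x y : ℕ} (hx : x ∈ T) :
    (nb g T y).card = (nb g (T.erase x) y).card + if C g y x then 1 else 0 := by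
  have e : nb g (T.erase x) y = (nb g T y).erase x := by
    ext u
    rw [mem_nb, mem_erase, mem_erase, mem_nb]
    tauto
  rw [e]
  split_ifs with h
  · rw [card_erase_add_one (mem_nb.2 ⟨hx, h⟩)]
  · rw [erase_eq_of_notMem, add_zero]
    intro h'
    exact h (mem_nb.1 h').2

theorem val_simp : ∀ (n : ℕ) (T : Finset ℕ) (σ : ℕ → ℕ), T.card = n → Peo g σ T → ∀ x ∈ T,
    Simp g T x → ∀ j, val g σ T j = (j - (nb g T x).card) + val g σ (T.erase x) j := by
  intro n
  induction n with
  | zero =>
    intro T σ hT _ x hx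
    rw [card_eq_zero] at hT
    rw [hT] at hx
    simp at hx
  | succ n ih =>
    intro T σ hT hp x hx hs j
    obtain ⟨y, hy, hmin⟩ := exists_first hp.inj ⟨x, hx⟩
    by_cases hxy : x = y
    · subst hxy
      exact val_first hx hmin j
    · have hsy := first_simp hp hy hmin
      have hxe : x ∈ T.erase y := mem_erase.2 ⟨hxy, hx⟩
      have hye : y ∈ T.erase x := mem_erase.2 ⟨Ne.symm hxy, hy⟩
      have h1 := val_first (g := g) hy hmin j
      have h2 := ih (T.erase y) σ (by rw [card_erase_of_mem hy]; omega)
        (hp.mono (erase_subset _ _)) x hxe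
        (fun u hu w hw => hs u (mem_of_mem_erase hu) w (mem_of_mem_erase hw)) j
      have h3 := val_first (g := g) (σ := σ) (T := T.erase x) hye
        (fun v hv hvy => hmin v (mem_of_mem_erase hv) hvy) j
      have h4 : (T.erase y).erase x = (T.erase x).erase y := erase_right_comm
      rw [h4] at h2
      have d1 := nb_erase_card (g := g) (y := x) hy
      have d2 := nb_erase_card (g := g) (y := y) hx
      rw [h1, h2, h3]
      by_cases hc : C g x y
      · have hc' := hc.symm
        rw [if_pos hc] at d1
        rw [if_pos hc'] at d2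
        have e : (nb g (T.erase y) x).card = (nb g (T.erase x) y).card := by
          congr 1
          ext u
          rw [mem_nb, mem_nb, mem_erase, mem_erase]
          constructor
          · rintro ⟨⟨h5, h6⟩, h7⟩
            refine ⟨⟨h7.ne.symm, h6⟩, ?_⟩
            exact hs y hy u h6 hc' h7.symm (Ne.symm h5)
          · rintro ⟨⟨h5, h6⟩, h7⟩
            refine ⟨⟨h7.ne.symm, h6⟩, ?_⟩
            exact hsy x hx u h6 hc h7.symm (Ne.symm h5)
        omega
      · have hc' : ¬ C g y x := fun h => hc h.symm
        rw [if_neg hc] at d1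
        rw [if_neg hc'] at d2
        omega

/-- `val` does not depend on the elimination order. -/
theorem val_unique : ∀ (n : ℕ) (T : Finset ℕ) (σ τ : ℕ → ℕ), T.card = n → Peo g σ T →
    Peo g τ T → ∀ j, val g σ T j = val g τ T j := by
  intro n
  induction n with
  | zero =>
    intro T σ τ hT _ _ j
    rw [card_eq_zero] at hT
    rw [hT]
    rfl
  | succ n ih =>
    intro T σ τ hT hσ hτ j
    have hne : T.Nonempty := by
      rw [← card_pos]
      omega
    obtain ⟨y, hy, hmin⟩ := exists_first hσ.inj hne
    rw [val_first hy hmin j, val_simp (n + 1) T τ hT hτ y hy (first_simp hσ hy hmin) j,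
      ih (T.erase y) σ τ (by rw [card_erase_of_mem hy]; omega) (hσ.mono (erase_subset _ _))
        (hτ.mono (erase_subset _ _)) j]

end Pool.Agent.TH173.TO
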