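import Mathlib

/-!
# Ordered graphs without an induced path `P_4` whose middle vertices come first

Let `g` be a graph on a finite set of numbers. For a vertex `v` let `dl` be the set of the smaller
neighbours and `fl` the set of the larger non-neighbours. If the graph contains no induced path
with four vertices whose two middle vertices precede the two end vertices, then every subset with
at least three elements has at least three empty lists. This gives lower bounds for the sums
`∑ (j - |dl v|)^+ + (j - |fl v|)^+`.
-/

set_option autoImplicit false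
open Finset

namespace Pool.Agent.TH173.TO

variable (g : ℕ → ℕ → Bool)

/-- the smaller neighbours of `v` in `S` -/
def dl (S : Finset ℕ) (v : ℕ) : Finset ℕ := S.filter fun u => u < v ∧ g u v = true

/-- the larger non-neighbours of `v` in `S` -/
def fl (S : Finset ℕ) (v : ℕ) : Finset ℕ := S.filter fun w => v < w ∧ g v w = false

/-- `a < b < c < d` induce a path with middle vertices `a`, `b` -/
def Bad (a b c d : ℕ) : Prop :=
  g a b = true ∧ g c d = false ∧
    ((g a c = true ∧ g b d = true ∧ g a d = false ∧ g b c = false) ∨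
      (g a d = true ∧ g b c = true ∧ g a c = false ∧ g b d = false))

/-- no four elements of `V` induce a path whose middle vertices come first -/
def Ok (V : Finset ℕ) : Prop :=
  ∀ a ∈ V, ∀ b ∈ V, ∀ c ∈ V, ∀ d ∈ V, a < b → b < c → c < d → ¬ Bad g a b c d

variable {g}

theorem mem_dl {S : Finset ℕ} {u v : ℕ} : u ∈ dl g S v ↔ u ∈ S ∧ u < v ∧ g u v = true := by
  unfold dl
  rw [mem_filter]

theorem mem_fl {S : Finset ℕ} {u v : ℕ} : u ∈ fl g S v ↔ u ∈ S ∧ v < u ∧ g v u = false := by
  unfold fl
  rw [mem_filter]

theorem Ok.mono {V W : Finset ℕ} (h : Ok g V) (hW : W ⊆ V) : Ok g W :=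
  fun a ha b hb c hc d hd => h a (hW ha) b (hW hb) c (hW hc) d (hW hd)

/-- four vertices all of whose lists have at most one element are bad -/
theorem bad_of_le_one {S : Finset ℕ} {a b c d : ℕ} (ha : a ∈ S) (hb : b ∈ S) (hc : c ∈ S)
    (hd : d ∈ S) (hab : a < b) (hbc : b < c) (hcd : c < d)
    (h : ∀ v ∈ ({a, b, c, d} : Finset ℕ), (dl g S v).card ≤ 1 ∧ (fl g S v).card ≤ 1) :
    Bad g a b c d := by
  have D : ∀ v ∈ ({a, b, c, d} : Finset ℕ), ∀ x ∈ S, ∀ y ∈ S, x < y → y < v →
      ¬ (g x v = true ∧ g y v = true) := by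
    intro v hv x hx y hy hxy hyv hh
    have := card_le_one.1 (h v hv).1 x (mem_dl.2 ⟨hx, hxy.trans hyv, hh.1⟩) y
      (mem_dl.2 ⟨hy, hyv, hh.2⟩)
    omega
  have F : ∀ v ∈ ({a, b, c, d} : Finset ℕ), ∀ x ∈ S, ∀ y ∈ S, v < x → x < y →
      ¬ (g v x = false ∧ g v y = false) := by
    intro v hv x hx y hy hvx hxy hh
    have := card_le_one.1 (h v hv).2 x (mem_fl.2 ⟨hx, hvx, hh.1⟩) y
      (mem_fl.2 ⟨hy, hvx.trans hxy, hh.2⟩)
    omega
  have d1 := D c (by simp) a ha b hb hab hbc
  have d2 := D d (by simp) a ha b hb hab (hbc.trans hcd)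
  have d3 := D d (by simp) a ha c hc (hab.trans hbc) hcd
  have d4 := D d (by simp) b hb c hc hbc hcd
  have f1 := F a (by simp) b hb c hc hab hbc
  have f2 := F a (by simp) b hb d hd hab (hbc.trans hcd)
  have f3 := F a (by simp) c hc d hd (hab.trans hbc) hcd
  have f4 := F b (by simp) c hc d hd hbc hcd
  unfold Bad
  rcases Bool.eq_false_or_eq_true (g a c) with h2 | h2
  · have h4 : g b c = false := by
      rw [← Bool.not_eq_true]
      exact fun h => d1 ⟨h2, h⟩
    have h5 : g b d = true := by
      rw [← Bool.not_eq_false]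
      exact fun h => f4 ⟨h4, h⟩
    have h3 : g a d = false := by
      rw [← Bool.not_eq_true]
      exact fun h => d2 ⟨h, h5⟩
    have h6 : g c d = false := by
      rw [← Bool.not_eq_true]
      exact fun h => d4 ⟨h5, h⟩
    have h1 : g a b = true := by
      rw [← Bool.not_eq_false]
      exact fun h => f2 ⟨h, h3⟩
    exact ⟨h1, h6, Or.inl ⟨h2, h5, h3, h4⟩⟩
  · have h1 : g a b = true := by
      rw [← Bool.not_eq_false]
      exact fun h => f1 ⟨h, h2⟩
    have h3 : g a d = true := by
      rw [← Bool.not_eq_false]
      exact fun h => f3 ⟨h2, h⟩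
    have h5 : g b d = false := by
      rw [← Bool.not_eq_true]
      exact fun h => d2 ⟨h3, h⟩
    have h6 : g c d = false := by
      rw [← Bool.not_eq_true]
      exact fun h => d3 ⟨h3, h⟩
    have h4 : g b c = true := by
      rw [← Bool.not_eq_false]
      exact fun h => f4 ⟨h, h5⟩
    exact ⟨h1, h6, Or.inr ⟨h3, h4, h2, h5⟩⟩

theorem sing_dl {S : Finset ℕ} {v x : ℕ} (h : (dl g S v).Nonempty) (h' : dl g (S.erase x) v = ∅) :
    dl g S v = {x} := by
  apply eq_singleton_iff_nonempty_unique_mem.2
  refine ⟨h, ?_⟩
  intro y hy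
  by_contra hyx
  rw [mem_dl] at hy
  have : y ∈ dl g (S.erase x) v := mem_dl.2 ⟨mem_erase.2 ⟨hyx, hy.1⟩, hy.2⟩
  rw [h'] at this
  simp at this

theorem sing_fl {S : Finset ℕ} {v x : ℕ} (h : (fl g S v).Nonempty) (h' : fl g (S.erase x) v = ∅) :
    fl g S v = {x} := by
  apply eq_singleton_iff_nonempty_unique_mem.2
  refine ⟨h, ?_⟩
  intro y hy
  by_contra hyx
  rw [mem_fl] at hy
  have : y ∈ fl g (S.erase x) v := mem_fl.2 ⟨mem_erase.2 ⟨hyx, hy.1⟩, hy.2⟩
  rw [h'] at this
  simp at this

/-- **Three empty lists.** In a set with at least three elements, with smallest element `s` and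
largest element `t`, some list besides `dl s` and `fl t` is empty. -/
theorem third : ∀ (k : ℕ) (S : Finset ℕ), S.card = k + 3 → Ok g S → ∀ s ∈ S, ∀ t ∈ S,
    (∀ v ∈ S, s ≤ v) → (∀ v ∈ S, v ≤ t) →
    (∃ v ∈ S, v ≠ s ∧ dl g S v = ∅) ∨ (∃ v ∈ S, v ≠ t ∧ fl g S v = ∅) := by
  intro k
  induction k with
  | zero =>
    intro S hS _ s hs t ht hmin hmax
    by_contra hcon
    push Not at hcon
    obtain ⟨hd, hf⟩ := hcon
    have hst : s ≠ t := by
      rintro rfl
      have : S ⊆ {s} := by
        intro v hv
        rw [mem_singleton]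
        exact le_antisymm (hmax v hv) (hmin v hv)
      have := card_le_card this
      simp at this
      omega
    obtain ⟨m, hm, hms, hmt⟩ : ∃ m ∈ S, m ≠ s ∧ m ≠ t := by
      by_contra hno
      push Not at hno
      have : S ⊆ {s, t} := by
        intro v hv
        rw [mem_insert, mem_singleton]
        by_contra hv'
        push Not at hv'
        exact hv'.2 (hno v hv hv'.1)
      have := (card_le_card this).trans card_le_two
      omega
    have hSe : S = {s, m, t} := by
      symm
      apply eq_of_subset_of_card_le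
      · intro v hv
        simp only [mem_insert, mem_singleton] at hv
        rcases hv with rfl | rfl | rfl <;> assumption
      · rw [hS, card_insert_of_notMem, card_insert_of_notMem, card_singleton]
        · simpa using hmt
        · simp only [mem_insert, mem_singleton, not_or]
          exact ⟨hms.symm, hst⟩
    have hsm := lt_of_le_of_ne (hmin m hm) hms.symm
    have hmt' := lt_of_le_of_ne (hmax m hm) hmt
    have e1 : g s m = true := by
      obtain ⟨u, hu⟩ := hd m hm hms
      rw [mem_dl, hSe] at hu
      simp only [mem_insert, mem_singleton] at hu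
      obtain ⟨rfl | rfl | rfl, h1, h2⟩ := hu
      · exact h2
      · omega
      · omega
    have e2 : g m t = false := by
      obtain ⟨u, hu⟩ := hf m hm hmt
      rw [mem_fl, hSe] at hu
      simp only [mem_insert, mem_singleton] at hu
      obtain ⟨rfl | rfl | rfl, h1, h2⟩ := hu
      · omega
      · omega
      · exact h2
    have e3 : g s t = true := by
      obtain ⟨u, hu⟩ := hd t ht hst.symm
      rw [mem_dl, hSe] at hu
      simp only [mem_insert, mem_singleton] at hu
      obtain ⟨rfl | rfl | rfl, h1, h2⟩ := hu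
      · exact h2
      · rw [h2] at e2; simp at e2
      · omega
    obtain ⟨u, hu⟩ := hf s hs hst
    rw [mem_fl, hSe] at hu
    simp only [mem_insert, mem_singleton] at hu
    obtain ⟨rfl | rfl | rfl, h1, h2⟩ := hu
    · omega
    · rw [h2] at e1; simp at e1
    · rw [h2] at e3; simp at e3
  | succ k ih =>
    intro S hS hok s hs t ht hmin hmax
    by_contra hcon
    push Not at hcon
    obtain ⟨hd, hf⟩ := hcon
    have hst : s ≠ t := by
      rintro rfl
      have : S ⊆ {s} := by
        intro v hv
        rw [mem_singleton]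
        exact le_antisymm (hmax v hv) (hmin v hv)
      have := card_le_card this
      simp at this
      omega
    have hce : ∀ x ∈ S, (S.erase x).card = k + 3 := by
      intro x hx
      rw [card_erase_of_mem hx]
      omega
    -- deleting an interior element
    have hint : ∀ x ∈ S, x ≠ s → x ≠ t →
        1 ≤ (S.filter fun v => dl g S v = {x}).card + (S.filter fun v => fl g S v = {x}).card := by
      intro x hx hxs hxt
      rcases ih (S.erase x) (hce x hx) (hok.mono (erase_subset _ _)) s
        (mem_erase.2 ⟨hxs.symm, hs⟩) t (mem_erase.2 ⟨hxt.symm, ht⟩)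
        (fun v hv => hmin v (mem_of_mem_erase hv)) (fun v hv => hmax v (mem_of_mem_erase hv))
        with ⟨v, hv, hvs, he⟩ | ⟨v, hv, hvs, he⟩
      · have h1 : v ∈ S.filter fun v => dl g S v = {x} :=
          mem_filter.2 ⟨mem_of_mem_erase hv, sing_dl (hd v (mem_of_mem_erase hv) hvs) he⟩
        have := card_pos.2 ⟨v, h1⟩
        omega
      · have h1 : v ∈ S.filter fun v => fl g S v = {x} :=
          mem_filter.2 ⟨mem_of_mem_erase hv, sing_fl (hf v (mem_of_mem_erase hv) hvs) he⟩
        have := card_pos.2 ⟨v, h1⟩
        omega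
    -- deleting the smallest element
    have hs2 : 2 ≤ (S.filter fun v => dl g S v = {s}).card := by
      have hne : (S.erase s).Nonempty := ⟨t, mem_erase.2 ⟨hst.symm, ht⟩⟩
      set s' := (S.erase s).min' hne with hs'
      have hs'm : s' ∈ S.erase s := min'_mem _ _
      have hs'min : ∀ v ∈ S.erase s, s' ≤ v := fun v hv => min'_le _ v hv
      rcases ih (S.erase s) (hce s hs) (hok.mono (erase_subset _ _)) s' hs'm t
        (mem_erase.2 ⟨hst.symm, ht⟩) hs'min (fun v hv => hmax v (mem_of_mem_erase hv))
        with ⟨v, hv, hvs, he⟩ | ⟨v, hv, hvs, he⟩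
      · have h1 : v ∈ S.filter fun v => dl g S v = {s} :=
          mem_filter.2 ⟨mem_of_mem_erase hv,
            sing_dl (hd v (mem_of_mem_erase hv) (ne_of_mem_erase hv)) he⟩
        have h2 : s' ∈ S.filter fun v => dl g S v = {s} := by
          refine mem_filter.2 ⟨mem_of_mem_erase hs'm,
            sing_dl (hd s' (mem_of_mem_erase hs'm) (ne_of_mem_erase hs'm)) ?_⟩
          rw [eq_empty_iff_forall_notMem]
          intro u hu
          rw [mem_dl] at hu
          have := hs'min u hu.1
          omega
        exact one_lt_card.2 ⟨v, h1, s', h2, hvs⟩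
      · exfalso
        have h1 := sing_fl (hf v (mem_of_mem_erase hv) hvs) he
        have h2 : s ∈ fl g S v := by rw [h1]; exact mem_singleton_self s
        rw [mem_fl] at h2
        have := hmin v (mem_of_mem_erase hv)
        omega
    -- deleting the largest element
    have ht2 : 2 ≤ (S.filter fun v => fl g S v = {t}).card := by
      have hne : (S.erase t).Nonempty := ⟨s, mem_erase.2 ⟨hst, hs⟩⟩
      set t' := (S.erase t).max' hne with ht'
      have ht'm : t' ∈ S.erase t := max'_mem _ _
      have ht'max : ∀ v ∈ S.erase t, v ≤ t' := fun v hv => le_max' _ v hv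
      rcases ih (S.erase t) (hce t ht) (hok.mono (erase_subset _ _)) s
        (mem_erase.2 ⟨hst, hs⟩) t' ht'm (fun v hv => hmin v (mem_of_mem_erase hv)) ht'max
        with ⟨v, hv, hvs, he⟩ | ⟨v, hv, hvs, he⟩
      · exfalso
        have h1 := sing_dl (hd v (mem_of_mem_erase hv) hvs) he
        have h2 : t ∈ dl g S v := by rw [h1]; exact mem_singleton_self t
        rw [mem_dl] at h2
        have := hmax v (mem_of_mem_erase hv)
        omega
      · have h1 : v ∈ S.filter fun v => fl g S v = {t} :=
          mem_filter.2 ⟨mem_of_mem_erase hv,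
            sing_fl (hf v (mem_of_mem_erase hv) (ne_of_mem_erase hv)) he⟩
        have h2 : t' ∈ S.filter fun v => fl g S v = {t} := by
          refine mem_filter.2 ⟨mem_of_mem_erase ht'm,
            sing_fl (hf t' (mem_of_mem_erase ht'm) (ne_of_mem_erase ht'm)) ?_⟩
          rw [eq_empty_iff_forall_notMem]
          intro u hu
          rw [mem_fl] at hu
          have := ht'max u hu.1
          omega
        exact one_lt_card.2 ⟨v, h1, t', h2, hvs⟩
    -- the number of lists with one element
    set c : ℕ → ℕ := fun v => (if (dl g S v).card = 1 then 1 else 0) +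
      (if (fl g S v).card = 1 then 1 else 0) with hc
    have hfib : ∀ L : ℕ → Finset ℕ, (∀ v, L v ⊆ S) →
        (∑ v ∈ S, if (L v).card = 1 then 1 else 0) =
          ∑ x ∈ S, (S.filter fun v => L v = {x}).card := by
      intro L hL
      have h1 : ∀ v ∈ S, (if (L v).card = 1 then 1 else 0) =
          ∑ x ∈ S, if L v = {x} then 1 else 0 := by
        intro v _
        split_ifs with h
        · obtain ⟨y, hy⟩ := card_eq_one.1 h
          have hyS : y ∈ S := hL v (by rw [hy]; exact mem_singleton_self y)
          rw [sum_eq_single_of_mem y hyS]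
          · rw [if_pos hy]
          · intro z _ hz
            rw [if_neg]
            rw [hy]
            intro h2
            exact hz (singleton_injective h2).symm
        · symm
          apply sum_eq_zero
          intro x _
          rw [if_neg]
          intro h2
          rw [h2, card_singleton] at h
          exact h rfl
      rw [sum_congr rfl h1, sum_comm]
      apply sum_congr rfl
      intro x _
      rw [card_filter]
    have hsum : ∑ v ∈ S, c v = ∑ x ∈ S, ((S.filter fun v => dl g S v = {x}).card +
        (S.filter fun v => fl g S v = {x}).card) := by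
      have e : ∑ v ∈ S, c v = (∑ v ∈ S, if (dl g S v).card = 1 then 1 else 0) +
          ∑ v ∈ S, if (fl g S v).card = 1 then 1 else 0 := sum_add_distrib
      rw [e, hfib (dl g S) fun v => filter_subset _ _, hfib (fl g S) fun v => filter_subset _ _,
        ← sum_add_distrib]
    have hlow : S.card + 2 ≤ ∑ v ∈ S, c v := by
      rw [hsum]
      have h1 : ∀ x ∈ S, (1 + if x = s ∨ x = t then 1 else 0) ≤
          (S.filter fun v => dl g S v = {x}).card + (S.filter fun v => fl g S v = {x}).card := by
        intro x hx
        split_ifs with h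
        · rcases h with rfl | rfl
          · omega
          · omega
        · push Not at h
          have := hint x hx h.1 h.2
          omega
      refine le_trans ?_ (sum_le_sum h1)
      rw [sum_add_distrib, sum_const, smul_eq_mul, mul_one, ← card_filter]
      have : (2 : ℕ) ≤ (S.filter fun x => x = s ∨ x = t).card := by
        apply one_lt_card.2
        exact ⟨s, mem_filter.2 ⟨hs, Or.inl rfl⟩, t, mem_filter.2 ⟨ht, Or.inr rfl⟩, hst⟩
      omega
    set Z := S.filter fun v => (dl g S v).card ≤ 1 ∧ (fl g S v).card ≤ 1 with hZ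
    have hds : dl g S s = ∅ := by
      rw [eq_empty_iff_forall_notMem]
      intro u hu
      rw [mem_dl] at hu
      have := hmin u hu.1
      omega
    have hft : fl g S t = ∅ := by
      rw [eq_empty_iff_forall_notMem]
      intro u hu
      rw [mem_fl] at hu
      have := hmax u hu.1
      omega
    have hup : ∀ v ∈ S, c v + (if v = s ∨ v = t then 1 else 0) ≤
        1 + if (dl g S v).card ≤ 1 ∧ (fl g S v).card ≤ 1 then 1 else 0 := by
      intro v hv
      by_cases h1 : v = s
      · have e1 : c v = if (fl g S v).card = 1 then 1 else 0 := by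
          simp [hc, h1, hds]
        rw [e1, h1, hds, if_pos (Or.inl rfl)]
        split_ifs <;> simp_all
      · by_cases h2 : v = t
        · have e1 : c v = if (dl g S v).card = 1 then 1 else 0 := by
            simp [hc, h2, hft]
          rw [e1, h2, hft, if_pos (Or.inr rfl)]
          split_ifs <;> simp_all
        · simp only [hc, h1, h2, or_self, if_false]
          split_ifs <;> omega
    have hZ4 : 4 ≤ Z.card := by
      have h1 := sum_le_sum hup
      rw [sum_add_distrib, sum_add_distrib (f := fun _ => 1), sum_const, smul_eq_mul, mul_one,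
        ← card_filter, ← card_filter] at h1
      have : (2 : ℕ) ≤ (S.filter fun x => x = s ∨ x = t).card := by
        apply one_lt_card.2
        exact ⟨s, mem_filter.2 ⟨hs, Or.inl rfl⟩, t, mem_filter.2 ⟨ht, Or.inr rfl⟩, hst⟩
      rw [← hZ] at h1
      omega
    obtain ⟨Q, hQ, hQ4⟩ := exists_subset_card_eq hZ4
    have hQS : ∀ x ∈ Q, x ∈ S ∧ (dl g S x).card ≤ 1 ∧ (fl g S x).card ≤ 1 := by
      intro x hx
      exact mem_filter.1 (hQ hx)
    let f := Q.orderEmbOfFin hQ4
    have hf' : ∀ i, f i ∈ Q := fun i => Q.orderEmbOfFin_mem hQ4 i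
    have hfl : ∀ i j, i < j → f i < f j := fun i j h => (Q.orderEmbOfFin hQ4).strictMono h
    refine hok (f 0) (hQS _ (hf' 0)).1 (f 1) (hQS _ (hf' 1)).1 (f 2) (hQS _ (hf' 2)).1 (f 3)
      (hQS _ (hf' 3)).1 (hfl 0 1 (by decide)) (hfl 1 2 (by decide)) (hfl 2 3 (by decide)) ?_
    apply bad_of_le_one (hQS _ (hf' 0)).1 (hQS _ (hf' 1)).1 (hQS _ (hf' 2)).1
      (hQS _ (hf' 3)).1 (hfl 0 1 (by decide)) (hfl 1 2 (by decide)) (hfl 2 3 (by decide))
    intro v hv
    simp only [mem_insert, mem_singleton] at hv
    rcases hv with rfl | rfl | rfl | rfl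
    · exact (hQS _ (hf' 0)).2
    · exact (hQS _ (hf' 1)).2
    · exact (hQS _ (hf' 2)).2
    · exact (hQS _ (hf' 3)).2

end Pool.Agent.TH173.TO
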