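import Pool.Agent.TH173.TO.Core

/-! The deficits of the lists of an ordered graph. -/

set_option autoImplicit false
open Finset

namespace Pool.Agent.TH173.TO

variable {g : ℕ → ℕ → Bool}

/-- the total deficit of the lists with respect to `j` -/
def deficit (g : ℕ → ℕ → Bool) (S : Finset ℕ) (j : ℕ) : ℕ :=
  ∑ v ∈ S, ((j - (dl g S v).card) + (j - (fl g S v).card))

theorem deficit_ge : ∀ (j : ℕ) (S : Finset ℕ), 2 * j + 1 ≤ S.card → Ok g S →
    3 * (j + 1).choose 2 ≤ deficit g S j := by
  intro j
  induction j with
  | zero => intro S _ _; simp
  | succ j ih =>
    intro S hS hok
    have hne : S.Nonempty := by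
      rw [← card_pos]
      omega
    set s := S.min' hne with hs'
    set t := S.max' hne with ht'
    have hs : s ∈ S := min'_mem _ _
    have ht : t ∈ S := max'_mem _ _
    have hmin : ∀ v ∈ S, s ≤ v := fun v hv => min'_le _ v hv
    have hmax : ∀ v ∈ S, v ≤ t := fun v hv => le_max' _ v hv
    have hst : s ≠ t := by
      intro h
      have : S ⊆ {s} := by
        intro v hv
        rw [mem_singleton]
        refine le_antisymm ?_ (hmin v hv)
        rw [h]
        exact hmax v hv
      have := card_le_card this
      rw [card_singleton] at this
      omega
    have hst' : s < t := lt_of_le_of_ne (hmin t ht) hst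
    set T := (S.erase s).erase t with hT
    have hTS : T ⊆ S := (erase_subset _ _).trans (erase_subset _ _)
    have hTc : T.card + 2 = S.card := by
      rw [hT, card_erase_of_mem (mem_erase.2 ⟨hst.symm, ht⟩), card_erase_of_mem hs]
      omega
    have hmT : ∀ v, v ∈ T ↔ v ∈ S ∧ s < v ∧ v < t := by
      intro v
      rw [hT, mem_erase, mem_erase]
      constructor
      · rintro ⟨h1, h2, h3⟩
        exact ⟨h3, lt_of_le_of_ne (hmin v h3) (Ne.symm h2), lt_of_le_of_ne (hmax v h3) h1⟩
      · rintro ⟨h1, h2, h3⟩
        exact ⟨h3.ne, h2.ne', h1⟩
    have hds : dl g S s = ∅ := by
      rw [eq_empty_iff_forall_notMem]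
      intro u hu
      rw [mem_dl] at hu
      have := hmin u hu.1
      omega
    have hft : fl g S t = ∅ := by
      rw [eq_empty_iff_forall_notMem]
      intro u hu
      rw [mem_fl] at hu
      have := hmax u hu.1
      omega
    -- the lists of the inner vertices
    have hdT : ∀ v ∈ T, (dl g S v).card = (dl g T v).card + if g s v = true then 1 else 0 := by
      intro v hv
      have hv' := (hmT v).1 hv
      have e : dl g S v = dl g T v ∪ if g s v = true then {s} else ∅ := by
        ext u
        rw [mem_union, mem_dl, mem_dl, hmT]
        constructor
        · rintro ⟨h1, h2, h3⟩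
          by_cases hu : u = s
          · subst hu
            right
            rw [if_pos h3]
            exact mem_singleton_self _
          · left
            exact ⟨⟨h1, lt_of_le_of_ne (hmin u h1) (Ne.symm hu), h2.trans hv'.2.2⟩, h2, h3⟩
        · rintro (⟨h1, h2, h3⟩ | h)
          · exact ⟨h1.1, h2, h3⟩
          · split_ifs at h with h1
            · rw [mem_singleton] at h
              subst h
              exact ⟨hs, hv'.2.1, h1⟩
            · simp at h
      rw [e, card_union_of_disjoint]
      · split_ifs <;> simp
      · rw [disjoint_left]
        intro u h1 h2
        rw [mem_dl, hmT] at h1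
        split_ifs at h2
        · rw [mem_singleton] at h2
          omega
        · simp at h2
    have hfT : ∀ v ∈ T, (fl g S v).card = (fl g T v).card + if g v t = false then 1 else 0 := by
      intro v hv
      have hv' := (hmT v).1 hv
      have e : fl g S v = fl g T v ∪ if g v t = false then {t} else ∅ := by
        ext u
        rw [mem_union, mem_fl, mem_fl, hmT]
        constructor
        · rintro ⟨h1, h2, h3⟩
          by_cases hu : u = t
          · subst hu
            right
            rw [if_pos h3]
            exact mem_singleton_self _
          · left
            exact ⟨⟨h1, hv'.2.1.trans h2, lt_of_le_of_ne (hmax u h1) hu⟩, h2, h3⟩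
        · rintro (⟨h1, h2, h3⟩ | h)
          · exact ⟨h1.1, h2, h3⟩
          · split_ifs at h with h1
            · rw [mem_singleton] at h
              subst h
              exact ⟨ht, hv'.2.2, h1⟩
            · simp at h
      rw [e, card_union_of_disjoint]
      · split_ifs <;> simp
      · rw [disjoint_left]
        intro u h1 h2
        rw [mem_fl, hmT] at h1
        split_ifs at h2
        · rw [mem_singleton] at h2
          omega
        · simp at h2
    set A := T.filter fun v => g s v = false ∧ (dl g T v).card ≤ j with hA
    set B := T.filter fun v => g v t = true ∧ (fl g T v).card ≤ j with hB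
    -- the witnesses
    have hwit : ∀ i, i ≤ j + 1 → (∃ R ⊆ A ∪ B, R.card = i) ∨
        j + 1 ≤ A.card + B.card + (j + 1 - (fl g S s).card) + (j + 1 - (dl g S t).card) := by
      intro i
      induction i with
      | zero => intro _; exact Or.inl ⟨∅, empty_subset _, card_empty⟩
      | succ i ihi =>
        intro hi
        rcases ihi (by omega) with ⟨R, hR, hRc⟩ | h
        · have hAT : A ∪ B ⊆ T := union_subset (filter_subset _ _) (filter_subset _ _)
          have hRT : R ⊆ T := hR.trans hAT
          have hcard := card_sdiff_add_card_eq_card (hRT.trans hTS)
          have hsR : s ∉ R := fun h => by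
            have := (hmT s).1 (hRT h)
            omega
          have htR : t ∉ R := fun h => by
            have := (hmT t).1 (hRT h)
            omega
          have hRAB : R.card ≤ A.card + B.card := (card_le_card hR).trans (card_union_le _ _)
          obtain ⟨k, hk⟩ : ∃ k, (S \ R).card = k + 3 := ⟨(S \ R).card - 3, by omega⟩
          rcases third k (S \ R) hk (hok.mono sdiff_subset) s (mem_sdiff.2 ⟨hs, hsR⟩) t
            (mem_sdiff.2 ⟨ht, htR⟩) (fun v hv => hmin v (mem_sdiff.1 hv).1)
            (fun v hv => hmax v (mem_sdiff.1 hv).1) with ⟨v, hv, hvs, he⟩ | ⟨v, hv, hvs, he⟩
          · have hsub : dl g S v ⊆ R := by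
              intro u hu
              by_contra huR
              rw [mem_dl] at hu
              have : u ∈ dl g (S \ R) v := mem_dl.2 ⟨mem_sdiff.2 ⟨hu.1, huR⟩, hu.2⟩
              rw [he] at this
              simp at this
            by_cases hvt : v = t
            · right
              rw [hvt] at hsub
              have := card_le_card hsub
              omega
            · left
              have hvS := (mem_sdiff.1 hv).1
              have hvR := (mem_sdiff.1 hv).2
              have hvT : v ∈ T := by
                rw [hmT]
                exact ⟨hvS, lt_of_le_of_ne (hmin v hvS) (Ne.symm hvs),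
                  lt_of_le_of_ne (hmax v hvS) hvt⟩
              have hsv : g s v = false := by
                rw [← Bool.not_eq_true]
                intro hg
                apply hsR
                apply hsub
                rw [mem_dl]
                exact ⟨hs, ((hmT v).1 hvT).2.1, hg⟩
              refine ⟨insert v R, insert_subset ?_ hR, by rw [card_insert_of_notMem hvR, hRc]⟩
              apply mem_union_left
              rw [hA, mem_filter]
              refine ⟨hvT, hsv, ?_⟩
              have h1 := card_le_card hsub
              have h2 := hdT v hvT
              omega
          · have hsub : fl g S v ⊆ R := by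
              intro u hu
              by_contra huR
              rw [mem_fl] at hu
              have : u ∈ fl g (S \ R) v := mem_fl.2 ⟨mem_sdiff.2 ⟨hu.1, huR⟩, hu.2⟩
              rw [he] at this
              simp at this
            by_cases hvt : v = s
            · right
              rw [hvt] at hsub
              have := card_le_card hsub
              omega
            · left
              have hvS := (mem_sdiff.1 hv).1
              have hvR := (mem_sdiff.1 hv).2
              have hvT : v ∈ T := by
                rw [hmT]
                exact ⟨hvS, lt_of_le_of_ne (hmin v hvS) (Ne.symm hvt),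
                  lt_of_le_of_ne (hmax v hvS) hvs⟩
              have hsv : g v t = true := by
                rw [← Bool.not_eq_false]
                intro hg
                apply htR
                apply hsub
                rw [mem_fl]
                exact ⟨ht, ((hmT v).1 hvT).2.2, hg⟩
              refine ⟨insert v R, insert_subset ?_ hR, by rw [card_insert_of_notMem hvR, hRc]⟩
              apply mem_union_right
              rw [hB, mem_filter]
              refine ⟨hvT, hsv, ?_⟩
              have h1 := card_le_card hsub
              have h2 := hfT v hvT
              omega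
        · exact Or.inr h
    have hkey : j + 1 ≤ A.card + B.card + (j + 1 - (fl g S s).card) +
        (j + 1 - (dl g S t).card) := by
      rcases hwit (j + 1) le_rfl with ⟨R, hR, hRc⟩ | h
      · have := (card_le_card hR).trans (card_union_le _ _)
        omega
      · exact h
    have hIH := ih T (by omega) (hok.mono hTS)
    -- the sum
    have hsum : deficit g S (j + 1) = deficit g T j + A.card + B.card + 2 * (j + 1) +
        (j + 1 - (fl g S s).card) + (j + 1 - (dl g S t).card) := by
      have h1 : deficit g S (j + 1) = (∑ v ∈ T, ((j + 1 - (dl g S v).card) +
          (j + 1 - (fl g S v).card))) + ((j + 1 - (dl g S t).card) + (j + 1 - (fl g S t).card)) +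
          ((j + 1 - (dl g S s).card) + (j + 1 - (fl g S s).card)) := by
        unfold deficit
        rw [← sum_erase_add S _ hs, ← sum_erase_add (S.erase s) _ (mem_erase.2 ⟨hst.symm, ht⟩)]
      have h2 : ∀ v ∈ T, ((j + 1 - (dl g S v).card) + (j + 1 - (fl g S v).card)) =
          ((j - (dl g T v).card) + (j - (fl g T v).card)) +
          ((if g s v = false ∧ (dl g T v).card ≤ j then 1 else 0) +
          (if g v t = true ∧ (fl g T v).card ≤ j then 1 else 0)) := by
        intro v hv
        rw [hdT v hv, hfT v hv]
        rcases Bool.eq_false_or_eq_true (g s v) with h | h <;>
          rcases Bool.eq_false_or_eq_true (g v t) with h' | h' <;>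
          simp only [h, h', true_and, Bool.true_eq_false, Bool.false_eq_true, false_and,
            if_true, if_false] <;> (try split_ifs) <;> omega
      have h3 : ∑ v ∈ T, (((j - (dl g T v).card) + (j - (fl g T v).card)) +
          ((if g s v = false ∧ (dl g T v).card ≤ j then 1 else 0) +
          (if g v t = true ∧ (fl g T v).card ≤ j then 1 else 0))) =
          deficit g T j + (A.card + B.card) := by
        unfold deficit
        rw [sum_add_distrib (f := fun v => (j - (dl g T v).card) + (j - (fl g T v).card))]
        congr 1
        rw [sum_add_distrib, ← card_filter, ← card_filter]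
      rw [h1, sum_congr rfl h2, h3, hds, hft, card_empty]
      omega
    rw [hsum]
    have hch : (j + 1 + 1).choose 2 = (j + 1) + (j + 1).choose 2 := by
      rw [Nat.choose_succ_succ' (j + 1) 1, Nat.choose_one_right]
    rw [hch]
    omega

end Pool.Agent.TH173.TO
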