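import Pool.Agent.TH173.TO.Two

/-! The deficits of two acyclic families of lists: removing two vertices. -/

set_option autoImplicit false
open Finset

namespace Pool.Agent.TH173.TO.Two

variable {V : Type} [DecidableEq V] {A B : V → Finset V}

theorem card_split {L S : Finset V} {s t : V} (hs : s ∈ S) (ht : t ∈ S) (_hst : s ≠ t)
    (h : ¬ (s ∈ L ∧ t ∈ L)) :
    (L ∩ S).card = (L ∩ (S.erase s).erase t).card + if s ∈ L ∨ t ∈ L then 1 else 0 := by
  have e : L ∩ (S.erase s).erase t = ((L ∩ S).erase s).erase t := by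
    rw [inter_erase, inter_erase]
  rw [e]
  by_cases h1 : s ∈ L
  · have h2 : t ∉ L := fun h2 => h ⟨h1, h2⟩
    rw [if_pos (Or.inl h1), erase_eq_of_notMem (a := t), card_erase_add_one]
    · exact mem_inter.2 ⟨h1, hs⟩
    · intro h3
      exact h2 (mem_inter.1 (mem_of_mem_erase h3)).1
  · have h3 : s ∉ L ∩ S := fun h3 => h1 (mem_inter.1 h3).1
    rw [erase_eq_of_notMem h3]
    by_cases h2 : t ∈ L
    · rw [if_pos (Or.inr h2), card_erase_add_one]
      exact mem_inter.2 ⟨h2, ht⟩
    · rw [if_neg (by tauto), erase_eq_of_notMem, add_zero]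
      intro h4
      exact h2 (mem_inter.1 h4).1

theorem step {S : Finset V} (hsys : Sys A B S) {s t : V} (hs : s ∈ S) (ht : t ∈ S) (hst : s ≠ t)
    (hAs : A s ∩ S = ∅) (hBt : B t ∩ S = ∅)
    (hA : ∀ v ∈ S, v ≠ s → v ≠ t → ¬ (s ∈ A v ∧ t ∈ A v))
    (hB : ∀ v ∈ S, v ≠ s → v ≠ t → ¬ (s ∈ B v ∧ t ∈ B v)) (j : ℕ) (hj : j + 2 ≤ S.card) :
    (∑ v ∈ (S.erase s).erase t, ((j - (A v ∩ (S.erase s).erase t).card) +
        (j - (B v ∩ (S.erase s).erase t).card))) + 3 * (j + 1) ≤
      ∑ v ∈ S, ((j + 1 - (A v ∩ S).card) + (j + 1 - (B v ∩ S).card)) := by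
  set T := (S.erase s).erase t with hT
  have hTS : T ⊆ S := (erase_subset _ _).trans (erase_subset _ _)
  have hmT : ∀ v, v ∈ T ↔ v ∈ S ∧ v ≠ s ∧ v ≠ t := by
    intro v
    rw [hT, mem_erase, mem_erase]
    tauto
  have hAT : ∀ v ∈ T, (A v ∩ S).card = (A v ∩ T).card + if s ∈ A v ∨ t ∈ A v then 1 else 0 := by
    intro v hv
    have := (hmT v).1 hv
    exact card_split hs ht hst (hA v this.1 this.2.1 this.2.2)
  have hBT : ∀ v ∈ T, (B v ∩ S).card = (B v ∩ T).card + if s ∈ B v ∨ t ∈ B v then 1 else 0 := by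
    intro v hv
    have := (hmT v).1 hv
    exact card_split hs ht hst (hB v this.1 this.2.1 this.2.2)
  set X := T.filter fun v => ¬ (s ∈ A v ∨ t ∈ A v) ∧ (A v ∩ T).card ≤ j with hX
  set Y := T.filter fun v => ¬ (s ∈ B v ∨ t ∈ B v) ∧ (B v ∩ T).card ≤ j with hY
  have hXT : X ∪ Y ⊆ T := union_subset (filter_subset _ _) (filter_subset _ _)
  -- the witnesses
  have hwit : ∀ i, i ≤ j + 1 → (∃ R ⊆ X ∪ Y, R.card = i) ∨
      j + 1 ≤ X.card + Y.card + (j + 1 - (B s ∩ S).card) + (j + 1 - (A t ∩ S).card) := by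
    intro i
    induction i with
    | zero => intro _; exact Or.inl ⟨∅, empty_subset _, card_empty⟩
    | succ i ihi =>
      intro hi
      rcases ihi (by omega) with ⟨R, hR, hRc⟩ | h
      · have hRT : R ⊆ T := hR.trans hXT
        have hcard := card_sdiff_add_card_eq_card (hRT.trans hTS)
        have hsR : s ∉ R := fun h => ((hmT s).1 (hRT h)).2.1 rfl
        have htR : t ∉ R := fun h => ((hmT t).1 (hRT h)).2.2 rfl
        have hRAB : R.card ≤ X.card + Y.card := (card_le_card hR).trans (card_union_le _ _)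
        obtain ⟨k, hk⟩ : ∃ k, (S \ R).card = k + 2 := ⟨(S \ R).card - 2, by omega⟩
        have hz : ∀ L : Finset V, L ∩ S = ∅ → L ∩ (S \ R) = ∅ := by
          intro L hL
          rw [← subset_empty, ← hL]
          exact inter_subset_inter Subset.rfl sdiff_subset
        have hsub : ∀ L : Finset V, L ∩ (S \ R) = ∅ → L ∩ S ⊆ R := by
          intro L hL u hu
          by_contra huR
          rw [mem_inter] at hu
          have : u ∈ L ∩ (S \ R) := mem_inter.2 ⟨hu.1, mem_sdiff.2 ⟨hu.2, huR⟩⟩
          rw [hL] at this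
          simp at this
        rcases third k (S \ R) hk (hsys.mono sdiff_subset) s (mem_sdiff.2 ⟨hs, hsR⟩) t
          (mem_sdiff.2 ⟨ht, htR⟩) (hz _ hAs) (hz _ hBt) with ⟨v, hv, hvs, he⟩ | ⟨v, hv, hvs, he⟩
        · have hsub := hsub _ he
          by_cases hvt : v = t
          · right
            rw [hvt] at hsub
            have := card_le_card hsub
            omega
          · left
            have hvS := (mem_sdiff.1 hv).1
            have hvR := (mem_sdiff.1 hv).2
            have hvT : v ∈ T := (hmT v).2 ⟨hvS, hvs, hvt⟩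
            have hno : ¬ (s ∈ A v ∨ t ∈ A v) := by
              rintro (h | h)
              · exact hsR (hsub (mem_inter.2 ⟨h, hs⟩))
              · exact htR (hsub (mem_inter.2 ⟨h, ht⟩))
            refine ⟨insert v R, insert_subset ?_ hR, by rw [card_insert_of_notMem hvR, hRc]⟩
            apply mem_union_left
            rw [hX, mem_filter]
            refine ⟨hvT, hno, ?_⟩
            have h1 := card_le_card hsub
            have h2 := hAT v hvT
            omega
        · have hsub := hsub _ he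
          by_cases hvt : v = s
          · right
            rw [hvt] at hsub
            have := card_le_card hsub
            omega
          · left
            have hvS := (mem_sdiff.1 hv).1
            have hvR := (mem_sdiff.1 hv).2
            have hvT : v ∈ T := (hmT v).2 ⟨hvS, hvt, hvs⟩
            have hno : ¬ (s ∈ B v ∨ t ∈ B v) := by
              rintro (h | h)
              · exact hsR (hsub (mem_inter.2 ⟨h, hs⟩))
              · exact htR (hsub (mem_inter.2 ⟨h, ht⟩))
            refine ⟨insert v R, insert_subset ?_ hR, by rw [card_insert_of_notMem hvR, hRc]⟩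
            apply mem_union_right
            rw [hY, mem_filter]
            refine ⟨hvT, hno, ?_⟩
            have h1 := card_le_card hsub
            have h2 := hBT v hvT
            omega
      · exact Or.inr h
  have hkey : j + 1 ≤ X.card + Y.card + (j + 1 - (B s ∩ S).card) +
      (j + 1 - (A t ∩ S).card) := by
    rcases hwit (j + 1) le_rfl with ⟨R, hR, hRc⟩ | h
    · have := (card_le_card hR).trans (card_union_le _ _)
      omega
    · exact h
  have h1 : ∑ v ∈ S, ((j + 1 - (A v ∩ S).card) + (j + 1 - (B v ∩ S).card)) =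
      (∑ v ∈ T, ((j + 1 - (A v ∩ S).card) + (j + 1 - (B v ∩ S).card))) +
      ((j + 1 - (A t ∩ S).card) + (j + 1 - (B t ∩ S).card)) +
      ((j + 1 - (A s ∩ S).card) + (j + 1 - (B s ∩ S).card)) := by
    rw [← sum_erase_add S _ hs, ← sum_erase_add (S.erase s) _ (mem_erase.2 ⟨hst.symm, ht⟩)]
  have h2 : ∀ v ∈ T, ((j + 1 - (A v ∩ S).card) + (j + 1 - (B v ∩ S).card)) =
      ((j - (A v ∩ T).card) + (j - (B v ∩ T).card)) +
      ((if ¬ (s ∈ A v ∨ t ∈ A v) ∧ (A v ∩ T).card ≤ j then 1 else 0) +
      (if ¬ (s ∈ B v ∨ t ∈ B v) ∧ (B v ∩ T).card ≤ j then 1 else 0)) := by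
    intro v hv
    rw [hAT v hv, hBT v hv]
    by_cases h : s ∈ A v ∨ t ∈ A v <;> by_cases h' : s ∈ B v ∨ t ∈ B v <;>
      simp only [h, h', not_true_eq_false, not_false_eq_true, true_and, false_and,
        if_true, if_false] <;> (try split_ifs) <;> omega
  have h3 : ∑ v ∈ T, (((j - (A v ∩ T).card) + (j - (B v ∩ T).card)) +
      ((if ¬ (s ∈ A v ∨ t ∈ A v) ∧ (A v ∩ T).card ≤ j then 1 else 0) +
      (if ¬ (s ∈ B v ∨ t ∈ B v) ∧ (B v ∩ T).card ≤ j then 1 else 0))) =
      (∑ v ∈ T, ((j - (A v ∩ T).card) + (j - (B v ∩ T).card))) + (X.card + Y.card) := by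
    rw [sum_add_distrib (f := fun v => (j - (A v ∩ T).card) + (j - (B v ∩ T).card))]
    congr 1
    rw [sum_add_distrib, ← card_filter, ← card_filter]
  rw [h1, sum_congr rfl h2, h3, hAs, hBt, card_empty]
  omega

end Pool.Agent.TH173.TO.Two
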