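import Pool.Agent.TH173.TO.Core
import Pool.Agent.TH173.TO.Step
import Pool.Agent.TH173.TO.Chordal

/-! The deficits for the rule `{1, 2, 3, 4, 5}`. -/

set_option autoImplicit false
open Finset

namespace Pool.Agent.TH173.TO

variable {g : ℕ → ℕ → Bool}

theorem sys62 {σ : ℕ → ℕ} {T : Finset ℕ} (hp : Peo g σ T) (hcov : Cov g T) :
    Two.Sys (fun v => dl g T v) (fun v => pl g σ T v) T where
  acA := by
    intro U hU hne
    refine ⟨U.min' hne, min'_mem _ _, ?_⟩
    rw [eq_empty_iff_forall_notMem]
    intro u hu
    rw [mem_inter, mem_dl] at hu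
    have := min'_le U u hu.2
    omega
  acB := by
    intro U hU hne
    obtain ⟨y, hy, hmax⟩ := exists_max_image U σ hne
    refine ⟨y, hy, ?_⟩
    rw [eq_empty_iff_forall_notMem]
    intro u hu
    rw [mem_inter, mem_pl] at hu
    have := hmax u hu.2
    omega
  one := by
    intro x hx y hy hxy
    simp only [mem_dl, mem_pl]
    constructor
    · rintro ⟨_, h1, h2⟩
      refine ⟨?_, ?_, ?_⟩
      · rintro ⟨_, h3, _⟩
        omega
      · rintro ⟨_, h3, _⟩
        rw [(C_of_lt h1).1 h3.symm] at h2
        simp at h2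
      · rintro ⟨_, h3, _⟩
        rw [(C_of_lt h1).1 h3] at h2
        simp at h2
    · rintro ⟨_, h1, h2⟩
      refine ⟨?_, ?_, ?_⟩
      · rintro ⟨_, _, h3⟩
        omega
      · rintro ⟨_, h3, h4⟩
        rw [(C_of_lt h3).1 h1.symm] at h4
        simp at h4
      · rintro ⟨_, h3, h4⟩
        rw [(C_of_lt h3).1 h1] at h4
        simp at h4
  cov := by
    intro Q hQ hQ4
    obtain ⟨x, hx, y, hy, z, hz, hxy, h⟩ := hcov Q hQ hQ4
    rcases h with ⟨h1, h2, h3, h4⟩ | ⟨h1, h2, h3⟩
    · refine ⟨z, hz, Or.inl ?_⟩
      exact one_lt_card.2 ⟨x, mem_inter.2 ⟨mem_dl.2 ⟨hQ hx, h1, h3⟩, hx⟩, y,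
        mem_inter.2 ⟨mem_dl.2 ⟨hQ hy, h2, h4⟩, hy⟩, hxy⟩
    · have key : ∀ a b c, a ∈ Q → b ∈ Q → c ∈ Q → C g a b → C g a c → b ≠ c → σ a < σ b →
          σ a < σ c → ∃ v ∈ Q, 2 ≤ (dl g T v ∩ Q).card ∨ 2 ≤ (pl g σ T v ∩ Q).card := by
        intro a b c ha hb hc hab hac hbc h5 h6
        refine ⟨a, ha, Or.inr ?_⟩
        exact one_lt_card.2 ⟨b, mem_inter.2 ⟨mem_pl.2 ⟨hQ hb, hab, h5⟩, hb⟩, c,
          mem_inter.2 ⟨mem_pl.2 ⟨hQ hc, hac, h6⟩, hc⟩, hbc⟩
      have n1 : σ x ≠ σ y := fun h => h1.ne (hp.inj x (hQ hx) y (hQ hy) h)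
      have n2 : σ x ≠ σ z := fun h => h2.ne (hp.inj x (hQ hx) z (hQ hz) h)
      have n3 : σ y ≠ σ z := fun h => h3.ne (hp.inj y (hQ hy) z (hQ hz) h)
      rcases lt_or_gt_of_ne n1 with l1 | l1
      · rcases lt_or_gt_of_ne n2 with l2 | l2
        · exact key x y z hx hy hz h1 h2 h3.ne l1 l2
        · exact key z x y hz hx hy h2.symm h3.symm h1.ne l2 (l2.trans l1)
      · rcases lt_or_gt_of_ne n3 with l3 | l3
        · exact key y x z hy hx hz h1.symm h3 h2.ne l1 l3
        · exact key z x y hz hx hy h2.symm h3.symm h1.ne (l3.trans l1) l3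

/-- the deficit of the lists of smaller neighbours -/
def ddef (g : ℕ → ℕ → Bool) (T : Finset ℕ) (j : ℕ) : ℕ := ∑ v ∈ T, (j - (dl g T v).card)

theorem dl_sub {T T' : Finset ℕ} (h : T' ⊆ T) {v : ℕ} (h' : ∀ u ∈ T, u < v → u ∈ T') :
    dl g T v = dl g T' v := by
  ext u
  rw [mem_dl, mem_dl]
  constructor
  · rintro ⟨h1, h2, h3⟩
    exact ⟨h' u h1 h2, h2, h3⟩
  · rintro ⟨h1, h2, h3⟩
    exact ⟨h h1, h2, h3⟩

theorem rank_count (j : ℕ) : ∀ (n : ℕ) (T : Finset ℕ), T.card = n →
    min n (j + 1) ≤ (T.filter fun v => (dl g T v).card ≤ j).card := by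
  intro n
  induction n with
  | zero => intro T _; simp
  | succ n ih =>
    intro T hT
    have hne : T.Nonempty := by
      rw [← card_pos]
      omega
    rcases Nat.lt_or_ge j (n + 1) with h | h
    · obtain ⟨M, hM, hmax⟩ : ∃ M ∈ T, ∀ v ∈ T, v ≤ M :=
        ⟨T.max' hne, max'_mem _ _, fun v hv => le_max' _ v hv⟩
      have h1 := ih (T.erase M) (by rw [card_erase_of_mem hM]; omega)
      rcases Nat.lt_or_ge j n with h2 | h2
      · have h3 : ((T.erase M).filter fun v => (dl g (T.erase M) v).card ≤ j).card ≤
            (T.filter fun v => (dl g T v).card ≤ j).card := by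
          apply card_le_card
          intro v hv
          rw [mem_filter] at hv ⊢
          have hvT := mem_of_mem_erase hv.1
          refine ⟨hvT, ?_⟩
          rw [dl_sub (erase_subset M T)]
          · exact hv.2
          · intro u hu huv
            have := hmax v hvT
            exact mem_erase.2 ⟨by omega, hu⟩
        omega
      · -- `j = n`: all vertices
        have h3 : (T.filter fun v => (dl g T v).card ≤ j) = T := by
          rw [filter_eq_self]
          intro v hv
          have h4 : dl g T v ⊆ T.erase v := by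
            intro u hu
            rw [mem_dl] at hu
            exact mem_erase.2 ⟨by omega, hu.1⟩
          have h5 := card_le_card h4
          rw [card_erase_of_mem hv] at h5
          omega
        rw [h3]
        omega
    · have h3 : (T.filter fun v => (dl g T v).card ≤ j) = T := by
        rw [filter_eq_self]
        intro v hv
        have h4 := card_le_card (filter_subset (fun u => u < v ∧ g u v = true) T)
        change (dl g T v).card ≤ T.card at h4
        omega
      rw [h3]
      omega

theorem ddef_step (j : ℕ) {T : Finset ℕ} {x : ℕ} (hx : x ∈ T) :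
    ddef g (T.erase x) j + (j + 1) ≤ ddef g T (j + 1) := by
  have hc : ∀ v ∈ T.erase x, (dl g T v).card = (dl g (T.erase x) v).card +
      if x < v ∧ g x v = true then 1 else 0 := by
    intro v hv
    have e : dl g (T.erase x) v = (dl g T v).erase x := by
      ext u
      rw [mem_dl, mem_erase, mem_erase, mem_dl]
      tauto
    rw [e]
    split_ifs with h
    · rw [card_erase_add_one (mem_dl.2 ⟨hx, h⟩)]
    · rw [erase_eq_of_notMem, add_zero]
      intro h'
      exact h (mem_dl.1 h').2
  set W := (T.erase x).filter fun v => ¬ (x < v ∧ g x v = true) ∧ (dl g (T.erase x) v).card ≤ j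
    with hW
  have h1 : ddef g T (j + 1) = ddef g (T.erase x) j + W.card + (j + 1 - (dl g T x).card) := by
    unfold ddef
    rw [← sum_erase_add T _ hx, hW, card_filter, ← sum_add_distrib]
    congr 1
    apply sum_congr rfl
    intro v hv
    rw [hc v hv]
    by_cases h : x < v ∧ g x v = true
    · simp only [h, not_true_eq_false, false_and, and_self, if_true, if_false]
      omega
    · simp only [h, not_false_eq_true, true_and, if_false]
      split_ifs <;> omega
  set L := T.filter fun u => u < x with hL
  have h2 := rank_count (g := g) j L.card L rfl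
  have h3 : (L.filter fun v => (dl g L v).card ≤ j).card ≤ W.card := by
    apply card_le_card
    intro v hv
    rw [mem_filter] at hv
    obtain ⟨hvL, hv2⟩ := hv
    have hvL' := hvL
    rw [hL, mem_filter] at hvL'
    rw [hW, mem_filter]
    refine ⟨mem_erase.2 ⟨by omega, hvL'.1⟩, by omega, ?_⟩
    have e : dl g (T.erase x) v = dl g L v := by
      apply dl_sub
      · intro u hu
        rw [hL, mem_filter] at hu
        exact mem_erase.2 ⟨by omega, hu.1⟩
      · intro u hu huv
        rw [hL, mem_filter]
        exact ⟨mem_of_mem_erase hu, by omega⟩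
    rw [e]
    exact hv2
  have h4 : (dl g T x).card ≤ L.card := by
    apply card_le_card
    intro u hu
    rw [mem_dl] at hu
    rw [hL, mem_filter]
    exact ⟨hu.1, hu.2.1⟩
  omega

theorem deficit62 : ∀ (j : ℕ) (T : Finset ℕ) (σ : ℕ → ℕ), Peo g σ T → Cov g T →
    2 * j + 1 ≤ T.card → 3 * (j + 1).choose 2 ≤ ddef g T j + val g σ T j := by
  intro j
  induction j with
  | zero => intro T σ _ _ _; simp
  | succ j ih =>
    intro T σ hp hcov hT
    have hch : (j + 1 + 1).choose 2 = (j + 1) + (j + 1).choose 2 := by
      rw [Nat.choose_succ_succ' (j + 1) 1, Nat.choose_one_right]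
    have hne : T.Nonempty := by
      rw [← card_pos]
      omega
    obtain ⟨s, hs, hmin⟩ : ∃ s ∈ T, ∀ v ∈ T, s ≤ v :=
      ⟨T.min' hne, min'_mem _ _, fun v hv => min'_le _ v hv⟩
    have hdls : dl g T s = ∅ := by
      rw [eq_empty_iff_forall_notMem]
      intro u hu
      rw [mem_dl] at hu
      have := hmin u hu.1
      omega
    obtain ⟨m, hm⟩ : ∃ m, T.card = m + 1 := ⟨T.card - 1, by omega⟩
    by_cases hN : (T.filter fun v => s < v ∧ g s v = true).Nonempty
    · -- the largest neighbour of the smallest vertex
      obtain ⟨t, ht, htmax⟩ := exists_max_image _ (fun v => v) hN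
      rw [mem_filter] at ht
      obtain ⟨htT, hst, hgst⟩ := ht
      obtain ⟨τ, hτ, hτt⟩ := exists_peo m T hm hcov t htT
      rw [val_unique _ T σ τ rfl hp hτ]
      have hBt : pl g τ T t ∩ T = ∅ := by
        rw [eq_empty_iff_forall_notMem]
        intro u hu
        rw [mem_inter, mem_pl] at hu
        have := hτt u hu.2 hu.1.2.1.ne.symm
        omega
      have hstep := Two.step (sys62 hτ hcov) hs htT hst.ne (by rw [hdls, empty_inter]) hBt
        (by
          rintro v hv _ _ ⟨h1, h2⟩
          rw [mem_dl] at h1 h2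
          have := htmax v (mem_filter.2 ⟨hv, h1.2⟩)
          omega)
        (by
          rintro v hv _ _ ⟨h1, h2⟩
          rw [mem_pl] at h1 h2
          have h3 := hτ.clq v hv s hs t htT h1.2.1.symm h2.2.1.symm h1.2.2 h2.2.2 hst.ne
          rw [C_of_lt hst, hgst] at h3
          simp at h3) j (by omega)
      have hsubT : (T.erase s).erase t ⊆ T := (erase_subset _ _).trans (erase_subset _ _)
      have hIH := ih ((T.erase s).erase t) τ (hτ.mono hsubT) (hcov.mono hsubT) (by
        rw [card_erase_of_mem (mem_erase.2 ⟨hst.ne', htT⟩), card_erase_of_mem hs]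
        omega)
      have e1 : ∀ v, dl g T v ∩ (T.erase s).erase t = dl g ((T.erase s).erase t) v := by
        intro v
        ext u
        rw [mem_inter, mem_dl, mem_dl]
        constructor
        · rintro ⟨⟨_, h1, h2⟩, h3⟩
          exact ⟨h3, h1, h2⟩
        · rintro ⟨h3, h1, h2⟩
          exact ⟨⟨hsubT h3, h1, h2⟩, h3⟩
      have e2 : ∀ v, pl g τ T v ∩ (T.erase s).erase t = pl g τ ((T.erase s).erase t) v := by
        intro v
        ext u
        rw [mem_inter, mem_pl, mem_pl]
        constructor
        · rintro ⟨⟨_, h1, h2⟩, h3⟩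
          exact ⟨h3, h1, h2⟩
        · rintro ⟨h3, h1, h2⟩
          exact ⟨⟨hsubT h3, h1, h2⟩, h3⟩
      have e3 : ∀ v, dl g T v ∩ T = dl g T v := fun v => inter_eq_left.2 (filter_subset _ _)
      have e4 : ∀ v, pl g τ T v ∩ T = pl g τ T v := fun v => inter_eq_left.2 (filter_subset _ _)
      simp only [e1, e2, e3, e4, sum_add_distrib] at hstep
      unfold ddef val at hIH ⊢
      rw [hch]
      omega
    · -- the smallest vertex has no neighbours
      rw [not_nonempty_iff_eq_empty, filter_eq_empty_iff] at hN
      have hCs : ∀ v ∈ T, v ≠ s → C g v s := by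
        intro v hv hvs
        have h1 : s < v := lt_of_le_of_ne (hmin v hv) (Ne.symm hvs)
        have h2 : g s v = false := by
          rw [← Bool.not_eq_true]
          exact fun h => hN hv ⟨h1, h⟩
        exact ((C_of_lt h1).2 h2).symm
      obtain ⟨τ, hτ, hτs⟩ := exists_peo m T hm hcov s hs
      rw [val_unique _ T σ τ rfl hp hτ]
      set T1 := T.erase s with hT1
      have hT1T : T1 ⊆ T := erase_subset _ _
      have hT1c : T1.card + 1 = T.card := by
        rw [hT1, card_erase_of_mem hs]
        omega
      -- the elimination order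
      have hv1 : val g τ T (j + 1) = (j + 1) + val g τ T1 j := by
        unfold val
        rw [← sum_erase_add T _ hs, add_comm]
        congr 1
        · have : pl g τ T s = ∅ := by
            rw [eq_empty_iff_forall_notMem]
            intro u hu
            rw [mem_pl] at hu
            have := hτs u hu.1 hu.2.1.ne.symm
            omega
          rw [this, card_empty]
          omega
        · apply sum_congr rfl
          intro v hv
          have hvT := mem_of_mem_erase hv
          have hvs := ne_of_mem_erase hv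
          have e : pl g τ T v = insert s (pl g τ T1 v) := by
            ext u
            rw [mem_insert, mem_pl, mem_pl, hT1, mem_erase]
            constructor
            · rintro ⟨h1, h2, h3⟩
              by_cases h : u = s
              · exact Or.inl h
              · exact Or.inr ⟨⟨h, h1⟩, h2, h3⟩
            · rintro (rfl | ⟨⟨_, h1⟩, h2, h3⟩)
              · exact ⟨hs, hCs v hvT hvs, hτs v hvT hvs⟩
              · exact ⟨h1, h2, h3⟩
          rw [e, card_insert_of_notMem]
          · omega
          · intro h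
            rw [mem_pl, hT1, mem_erase] at h
            exact h.1.1 rfl
      have hd1 : ddef g T (j + 1) = (j + 1) + ddef g T1 (j + 1) := by
        unfold ddef
        rw [← sum_erase_add T _ hs, add_comm]
        congr 1
        · rw [hdls, card_empty]
          omega
        · apply sum_congr rfl
          intro v hv
          congr 2
          ext u
          rw [mem_dl, mem_dl, hT1, mem_erase]
          constructor
          · rintro ⟨h1, h2, h3⟩
            refine ⟨⟨?_, h1⟩, h2, h3⟩
            rintro rfl
            exact hN (mem_of_mem_erase hv) ⟨h2, h3⟩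
          · rintro ⟨⟨_, h1⟩, h2, h3⟩
            exact ⟨h1, h2, h3⟩
      have hτ1 := hτ.mono hT1T
      obtain ⟨x, hx, hxmin⟩ := exists_first hτ1.inj (by rw [← card_pos]; omega)
      have hv2 := val_first (g := g) hx hxmin j
      have hd2 := ddef_step (g := g) j hx
      have hsub2 : T1.erase x ⊆ T := (erase_subset _ _).trans hT1T
      have hIH := ih (T1.erase x) τ (hτ.mono hsub2) (hcov.mono hsub2) (by
        rw [card_erase_of_mem hx]
        omega)
      rw [hv1, hd1, hch]
      omega

end Pool.Agent.TH173.TO
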