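import Mathlib

/-!
# Two acyclic families of lists

Every vertex `v` has two lists `A v`, `B v`; each pair of vertices contributes to at most one list,
and each of the two families is acyclic. If in every set of four vertices some list has at least two
elements (in the set), then every set with at least two vertices has at least three empty lists.
-/

set_option autoImplicit false
open Finset

namespace Pool.Agent.TH173.TO.Two

variable {V : Type} [DecidableEq V] {A B : V → Finset V}

/-- the hypotheses -/
structure Sys (A B : V → Finset V) (S : Finset V) : Prop where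
  acA : ∀ T ⊆ S, T.Nonempty → ∃ v ∈ T, A v ∩ T = ∅
  acB : ∀ T ⊆ S, T.Nonempty → ∃ v ∈ T, B v ∩ T = ∅
  one : ∀ x ∈ S, ∀ y ∈ S, x ≠ y → (x ∈ A y → y ∉ A x ∧ x ∉ B y ∧ y ∉ B x) ∧
    (x ∈ B y → y ∉ B x ∧ x ∉ A y ∧ y ∉ A x)
  cov : ∀ Q ⊆ S, Q.card = 4 → ∃ v ∈ Q, 2 ≤ (A v ∩ Q).card ∨ 2 ≤ (B v ∩ Q).card

theorem Sys.mono {S T : Finset V} (h : Sys A B S) (hT : T ⊆ S) : Sys A B T where
  acA := fun U hU => h.acA U (hU.trans hT)
  acB := fun U hU => h.acB U (hU.trans hT)
  one := fun x hx y hy => h.one x (hT hx) y (hT hy)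
  cov := fun Q hQ => h.cov Q (hQ.trans hT)

theorem Sys.irrA {S : Finset V} (h : Sys A B S) {v : V} (hv : v ∈ S) : v ∉ A v := by
  obtain ⟨w, hw, he⟩ := h.acA {v} (singleton_subset_iff.2 hv) (singleton_nonempty v)
  rw [mem_singleton] at hw
  subst hw
  intro h1
  have : w ∈ A w ∩ {w} := mem_inter.2 ⟨h1, mem_singleton_self w⟩
  rw [he] at this
  simp at this

theorem Sys.irrB {S : Finset V} (h : Sys A B S) {v : V} (hv : v ∈ S) : v ∉ B v := by
  obtain ⟨w, hw, he⟩ := h.acB {v} (singleton_subset_iff.2 hv) (singleton_nonempty v)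
  rw [mem_singleton] at hw
  subst hw
  intro h1
  have : w ∈ B w ∩ {w} := mem_inter.2 ⟨h1, mem_singleton_self w⟩
  rw [he] at this
  simp at this

theorem sing {L S : Finset V} {x : V} (h : (L ∩ S).Nonempty) (h' : L ∩ S.erase x = ∅) :
    L ∩ S = {x} := by
  apply eq_singleton_iff_nonempty_unique_mem.2
  refine ⟨h, ?_⟩
  intro y hy
  by_contra hyx
  rw [mem_inter] at hy
  have : y ∈ L ∩ S.erase x := mem_inter.2 ⟨hy.1, mem_erase.2 ⟨hyx, hy.2⟩⟩
  rw [h'] at this
  simp at this

theorem third : ∀ (k : ℕ) (S : Finset V), S.card = k + 2 → Sys A B S → ∀ s ∈ S, ∀ t ∈ S,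
    A s ∩ S = ∅ → B t ∩ S = ∅ →
    (∃ v ∈ S, v ≠ s ∧ A v ∩ S = ∅) ∨ (∃ v ∈ S, v ≠ t ∧ B v ∩ S = ∅) := by
  intro k
  induction k with
  | zero =>
    intro S hS hsys s hs t ht _ _
    by_contra hcon
    push Not at hcon
    obtain ⟨hd, hf⟩ := hcon
    obtain ⟨x, y, hxy, rfl⟩ := card_eq_two.1 (by simpa using hS)
    have hx : x ∈ ({x, y} : Finset V) := by simp
    have hy : y ∈ ({x, y} : Finset V) := by simp
    have hAx := hsys.irrA hx
    have hAy := hsys.irrA hy
    have hBx := hsys.irrB hx
    have hBy := hsys.irrB hy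
    have a1 : (A x ∩ {x, y}).Nonempty → y ∈ A x := by
      rintro ⟨u, hu⟩
      simp only [mem_inter, mem_insert, mem_singleton] at hu
      rcases hu with ⟨h1, rfl | rfl⟩
      · exact absurd h1 hAx
      · exact h1
    have a2 : (A y ∩ {x, y}).Nonempty → x ∈ A y := by
      rintro ⟨u, hu⟩
      simp only [mem_inter, mem_insert, mem_singleton] at hu
      rcases hu with ⟨h1, rfl | rfl⟩
      · exact h1
      · exact absurd h1 hAy
    have a3 : (B x ∩ {x, y}).Nonempty → y ∈ B x := by
      rintro ⟨u, hu⟩
      simp only [mem_inter, mem_insert, mem_singleton] at hu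
      rcases hu with ⟨h1, rfl | rfl⟩
      · exact absurd h1 hBx
      · exact h1
    have a4 : (B y ∩ {x, y}).Nonempty → x ∈ B y := by
      rintro ⟨u, hu⟩
      simp only [mem_inter, mem_insert, mem_singleton] at hu
      rcases hu with ⟨h1, rfl | rfl⟩
      · exact h1
      · exact absurd h1 hBy
    have o1 := hsys.one x hx y hy hxy
    have o2 := hsys.one y hy x hx hxy.symm
    simp only [mem_insert, mem_singleton] at hs ht
    rcases hs with rfl | rfl <;> rcases ht with rfl | rfl
    · exact (o1.1 (a2 (hd y hy hxy.symm))).2.1 (a4 (hf y hy hxy.symm))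
    · exact (o1.1 (a2 (hd _ hy hxy.symm))).2.2 (a3 (hf _ hx hxy))
    · exact (o2.1 (a1 (hd _ hx hxy))).2.2 (a4 (hf _ hy hxy.symm))
    · exact (o2.1 (a1 (hd _ hx hxy))).2.1 (a3 (hf _ hx hxy))
  | succ k ih =>
    intro S hS hsys s hs t ht hAs hBt
    by_contra hcon
    push Not at hcon
    obtain ⟨hd, hf⟩ := hcon
    have hce : ∀ x ∈ S, (S.erase x).card = k + 2 := by
      intro x hx
      rw [card_erase_of_mem hx]
      omega
    have hsub : ∀ (L : Finset V) (x : V), L ∩ S = ∅ → L ∩ S.erase x = ∅ := by
      intro L x h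
      rw [← subset_empty, ← h]
      exact inter_subset_inter_left (erase_subset _ _)
    have pos : ∀ (L : V → Finset V) (v x : V), v ∈ S → L v ∩ S = {x} →
        1 ≤ (S.filter fun v => L v ∩ S = {x}).card := by
      intro L v x hv h
      exact card_pos.2 ⟨v, mem_filter.2 ⟨hv, h⟩⟩
    have pos2 : ∀ (L : V → Finset V) (v w x : V), v ∈ S → w ∈ S → v ≠ w → L v ∩ S = {x} →
        L w ∩ S = {x} → 2 ≤ (S.filter fun v => L v ∩ S = {x}).card := by
      intro L v w x hv hw hvw h h'
      exact one_lt_card.2 ⟨v, mem_filter.2 ⟨hv, h⟩, w, mem_filter.2 ⟨hw, h'⟩, hvw⟩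
    -- every vertex is the only element of sufficiently many lists
    have hint : ∀ x ∈ S, (1 + ((if x = s then 1 else 0) + if x = t then 1 else 0)) ≤
        (S.filter fun v => A v ∩ S = {x}).card + (S.filter fun v => B v ∩ S = {x}).card := by
      intro x hx
      have hne : (S.erase x).Nonempty := by
        rw [← card_pos, hce x hx]
        omega
      have hsysx := hsys.mono (erase_subset x S)
      by_cases hxs : x = s
      · obtain ⟨s', hs', hAs'⟩ := hsysx.acA (S.erase x) Subset.rfl hne
        have hs'S := mem_of_mem_erase hs'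
        have hs'n := ne_of_mem_erase hs'
        have e1 : A s' ∩ S = {x} := sing (hd s' hs'S (by rw [← hxs]; exact hs'n)) hAs'
        by_cases hxt : x = t
        · obtain ⟨t', ht', hBt'⟩ := hsysx.acB (S.erase x) Subset.rfl hne
          have ht'S := mem_of_mem_erase ht'
          have ht'n := ne_of_mem_erase ht'
          have e2 : B t' ∩ S = {x} := sing (hf t' ht'S (by rw [← hxt]; exact ht'n)) hBt'
          rw [if_pos hxs, if_pos hxt]
          rcases ih (S.erase x) (hce x hx) hsysx s' hs' t' ht' hAs' hBt' with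
            ⟨v, hv, hvs, he⟩ | ⟨v, hv, hvs, he⟩
          · have e3 : A v ∩ S = {x} := sing (hd v (mem_of_mem_erase hv)
              (by rw [← hxs]; exact ne_of_mem_erase hv)) he
            have p1 := pos2 A v s' x (mem_of_mem_erase hv) hs'S hvs e3 e1
            have p2 := pos B t' x ht'S e2
            omega
          · have e3 : B v ∩ S = {x} := sing (hf v (mem_of_mem_erase hv)
              (by rw [← hxt]; exact ne_of_mem_erase hv)) he
            have p1 := pos A s' x hs'S e1
            have p2 := pos2 B v t' x (mem_of_mem_erase hv) ht'S hvs e3 e2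
            omega
        · rw [if_pos hxs, if_neg hxt]
          rcases ih (S.erase x) (hce x hx) hsysx s' hs' t (mem_erase.2 ⟨Ne.symm hxt, ht⟩) hAs'
            (hsub _ _ hBt) with ⟨v, hv, hvs, he⟩ | ⟨v, hv, hvs, he⟩
          · have e3 : A v ∩ S = {x} := sing (hd v (mem_of_mem_erase hv)
              (by rw [← hxs]; exact ne_of_mem_erase hv)) he
            have p1 := pos2 A v s' x (mem_of_mem_erase hv) hs'S hvs e3 e1
            omega
          · have e3 : B v ∩ S = {x} := sing (hf v (mem_of_mem_erase hv) hvs) he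
            have p1 := pos A s' x hs'S e1
            have p2 := pos B v x (mem_of_mem_erase hv) e3
            omega
      · by_cases hxt : x = t
        · obtain ⟨t', ht', hBt'⟩ := hsysx.acB (S.erase x) Subset.rfl hne
          have ht'S := mem_of_mem_erase ht'
          have ht'n := ne_of_mem_erase ht'
          have e2 : B t' ∩ S = {x} := sing (hf t' ht'S (by rw [← hxt]; exact ht'n)) hBt'
          rw [if_neg hxs, if_pos hxt]
          rcases ih (S.erase x) (hce x hx) hsysx s (mem_erase.2 ⟨Ne.symm hxs, hs⟩) t' ht'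
            (hsub _ _ hAs) hBt' with ⟨v, hv, hvs, he⟩ | ⟨v, hv, hvs, he⟩
          · have e3 : A v ∩ S = {x} := sing (hd v (mem_of_mem_erase hv) hvs) he
            have p1 := pos A v x (mem_of_mem_erase hv) e3
            have p2 := pos B t' x ht'S e2
            omega
          · have e3 : B v ∩ S = {x} := sing (hf v (mem_of_mem_erase hv)
              (by rw [← hxt]; exact ne_of_mem_erase hv)) he
            have p2 := pos2 B v t' x (mem_of_mem_erase hv) ht'S hvs e3 e2
            omega
        · rw [if_neg hxs, if_neg hxt]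
          rcases ih (S.erase x) (hce x hx) hsysx s (mem_erase.2 ⟨Ne.symm hxs, hs⟩) t
            (mem_erase.2 ⟨Ne.symm hxt, ht⟩) (hsub _ _ hAs) (hsub _ _ hBt) with
            ⟨v, hv, hvs, he⟩ | ⟨v, hv, hvs, he⟩
          · have e3 : A v ∩ S = {x} := sing (hd v (mem_of_mem_erase hv) hvs) he
            have p1 := pos A v x (mem_of_mem_erase hv) e3
            omega
          · have e3 : B v ∩ S = {x} := sing (hf v (mem_of_mem_erase hv) hvs) he
            have p2 := pos B v x (mem_of_mem_erase hv) e3
            omega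
    -- the number of lists with one element
    have hfib : ∀ L : V → Finset V,
        (∑ v ∈ S, if (L v ∩ S).card = 1 then 1 else 0) =
          ∑ x ∈ S, (S.filter fun v => L v ∩ S = {x}).card := by
      intro L
      have h1 : ∀ v ∈ S, (if (L v ∩ S).card = 1 then 1 else 0) =
          ∑ x ∈ S, if L v ∩ S = {x} then 1 else 0 := by
        intro v _
        split_ifs with h
        · obtain ⟨y, hy⟩ := card_eq_one.1 h
          have hyS : y ∈ S := by
            have : y ∈ L v ∩ S := by rw [hy]; exact mem_singleton_self y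
            exact (mem_inter.1 this).2
          rw [sum_eq_single_of_mem y hyS]
          · rw [if_pos hy]
          · intro z _ hz
            rw [if_neg]
            rw [hy]
            intro h2
            exact hz (singleton_injective h2).symm
        · symm
          apply sum_eq_zero
          intro x _
          rw [if_neg]
          intro h2
          rw [h2, card_singleton] at h
          exact h rfl
      rw [sum_congr rfl h1, sum_comm]
      apply sum_congr rfl
      intro x _
      rw [card_filter]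
    have hst : ∀ s ∈ S, ∑ x ∈ S, (if x = s then 1 else 0) = 1 := by
      intro s hs
      rw [sum_ite_eq' S s, if_pos hs]
    have hlow : S.card + 2 ≤ (∑ v ∈ S, if (A v ∩ S).card = 1 then 1 else 0) +
        ∑ v ∈ S, if (B v ∩ S).card = 1 then 1 else 0 := by
      rw [hfib A, hfib B, ← sum_add_distrib]
      refine le_trans ?_ (sum_le_sum hint)
      rw [sum_add_distrib, sum_add_distrib, hst s hs, hst t ht, sum_const, smul_eq_mul, mul_one]
    set Z := S.filter fun v => (A v ∩ S).card ≤ 1 ∧ (B v ∩ S).card ≤ 1 with hZ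
    have hup : ∀ v ∈ S, ((if (A v ∩ S).card = 1 then 1 else 0) +
        (if (B v ∩ S).card = 1 then 1 else 0)) +
        ((if v = s then 1 else 0) + if v = t then 1 else 0) ≤
        1 + if (A v ∩ S).card ≤ 1 ∧ (B v ∩ S).card ≤ 1 then 1 else 0 := by
      intro v hv
      by_cases h1 : v = s
      · by_cases h2 : v = t
        · have e1 : A v ∩ S = ∅ := by rw [h1]; exact hAs
          have e2 : B v ∩ S = ∅ := by rw [h2]; exact hBt
          rw [if_pos h1, if_pos h2, e1, e2]
          simp
        · have e1 : A v ∩ S = ∅ := by rw [h1]; exact hAs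
          rw [if_pos h1, if_neg h2, e1, card_empty, if_neg (by norm_num : ¬ (0 : ℕ) = 1)]
          rcases le_or_gt (B v ∩ S).card 1 with h | h
          · rw [if_pos (⟨Nat.zero_le 1, h⟩ : 0 ≤ 1 ∧ (B v ∩ S).card ≤ 1)]
            split_ifs <;> omega
          · rw [if_neg (by omega : ¬ (B v ∩ S).card = 1)]
            omega
      · by_cases h2 : v = t
        · have e2 : B v ∩ S = ∅ := by rw [h2]; exact hBt
          rw [if_neg h1, if_pos h2, e2, card_empty, if_neg (by norm_num : ¬ (0 : ℕ) = 1)]
          rcases le_or_gt (A v ∩ S).card 1 with h | h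
          · rw [if_pos (⟨h, Nat.zero_le 1⟩ : (A v ∩ S).card ≤ 1 ∧ 0 ≤ 1)]
            split_ifs <;> omega
          · rw [if_neg (by omega : ¬ (A v ∩ S).card = 1)]
            omega
        · rw [if_neg h1, if_neg h2]
          split_ifs <;> omega
    have hZ4 : 4 ≤ Z.card := by
      have h1 := sum_le_sum hup
      have h2 : ∑ v ∈ S, (((if (A v ∩ S).card = 1 then 1 else 0) +
        (if (B v ∩ S).card = 1 then 1 else 0)) +
        ((if v = s then 1 else 0) + if v = t then 1 else 0)) =
        ((∑ v ∈ S, if (A v ∩ S).card = 1 then 1 else 0) +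
        ∑ v ∈ S, if (B v ∩ S).card = 1 then 1 else 0) + (1 + 1) := by
        rw [sum_add_distrib, sum_add_distrib, sum_add_distrib, hst s hs, hst t ht]
      have h3 : ∑ v ∈ S, (1 + if (A v ∩ S).card ≤ 1 ∧ (B v ∩ S).card ≤ 1 then 1 else 0) =
          S.card + Z.card := by
        rw [sum_add_distrib, sum_const, smul_eq_mul, mul_one, ← card_filter]
      rw [h2, h3] at h1
      omega
    obtain ⟨Q, hQ, hQ4⟩ := exists_subset_card_eq hZ4
    obtain ⟨v, hv, hv2⟩ := hsys.cov Q (hQ.trans (filter_subset _ _)) hQ4
    have hvZ := (mem_filter.1 (hQ hv)).2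
    have hQS : Q ⊆ S := hQ.trans (filter_subset _ _)
    have c1 : (A v ∩ Q).card ≤ (A v ∩ S).card := card_le_card (inter_subset_inter Subset.rfl hQS)
    have c2 : (B v ∩ Q).card ≤ (B v ∩ S).card := card_le_card (inter_subset_inter Subset.rfl hQS)
    omega

end Pool.Agent.TH173.TO.Two
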